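import Pool.Agent.H61.TF.St

set_option autoImplicit false

/-!
The choice of a 4-cycle star. If `5 n ≤ 3 |E| + 5` there is a 4-cycle star; if moreover `p, q` have at
most two common neighbours there is one whose diagonals are not `{p, q}`: the bad ones are all equal to
the set of the edges between `p, q` and their common neighbours, so there are at most two of them, and
`5 m ≤ ∑ |star j| + 2 ≤ 2 |E| + 2` contradicts `m ≥ |E| + 2 - n`.
-/

namespace Pool.Agent.H61.TF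

open Finset Pool.Agent.H32.BC Pool.Agent.H32.BD

theorem edge_rank {V : Type} [Fintype V] [Nonempty V] (G : SimpleGraph V) [Fintype G.edgeSet] :
    Fintype.card G.edgeSet + 1 ≤
      Module.finrank (ZMod 2) (cyc (V := V) (Subtype.val : G.edgeSet → Sym2 V)) +
        Fintype.card V := by
  classical
  have hr := rank_cyc (V := V) (Subtype.val : G.edgeSet → Sym2 V)
  have hE : Fintype.card {x // x ∈ G.edgeSet} = Fintype.card G.edgeSet := rfl
  rw [hE] at hr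
  have hr2 := rank_le (Subtype.val : G.edgeSet → Sym2 V) univ univ_nonempty
    (fun e x _ => mem_univ x) (fun e => G.not_isDiag_of_mem_edgeSet e.2)
  rw [Finset.card_univ] at hr2
  omega

private theorem mem_star {E J : Type} [Fintype E] (a b : E → J) (f : J) (e : E)
    (h : e ∈ star a b f) : a e = f ∨ b e = f := by
  classical
  unfold Pool.Agent.H32.BD.star at h
  rw [Finset.mem_filter] at h
  rcases h.2 with h4 | h4
  · exact Or.inl h4.1
  · exact Or.inr h4.2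

private theorem bad_star {V : Type} (G : SimpleGraph V) (S : Finset G.edgeSet) (p q : V)
    (hK : ∀ c₁ c₂ c₃, G.Adj p c₁ → G.Adj q c₁ → G.Adj p c₂ → G.Adj q c₂ → G.Adj p c₃ →
      G.Adj q c₃ → c₁ ≠ c₂ → c₁ ≠ c₃ → c₂ ≠ c₃ → False) (x y z u : V)
    (e₁ e₂ e₃ e₄ : G.edgeSet) (h₁ : (e₁ : Sym2 V) = s(x, y)) (h₂ : (e₂ : Sym2 V) = s(y, z))
    (h₃ : (e₃ : Sym2 V) = s(z, u)) (h₄ : (e₄ : Sym2 V) = s(u, x)) (hyu : y ≠ u)
    (hS : ∀ e, e ∈ S ↔ (e = e₁ ∨ e = e₂ ∨ e = e₃ ∨ e = e₄)) (hd : s(x, z) = s(p, q)) :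
    ∀ e, e ∈ S ↔ ∃ c, G.Adj p c ∧ G.Adj q c ∧
      ((e : Sym2 V) = s(p, c) ∨ (e : Sym2 V) = s(q, c)) := by
  have axy : G.Adj x y := by
    have := e₁.2
    rwa [h₁, SimpleGraph.mem_edgeSet] at this
  have ayz : G.Adj y z := by
    have := e₂.2
    rwa [h₂, SimpleGraph.mem_edgeSet] at this
  have azu : G.Adj z u := by
    have := e₃.2
    rwa [h₃, SimpleGraph.mem_edgeSet] at this
  have aux : G.Adj u x := by
    have := e₄.2
    rwa [h₄, SimpleGraph.mem_edgeSet] at this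
  intro e
  rw [hS e]
  rcases Sym2.eq_iff.1 hd with ⟨hx, hz⟩ | ⟨hx, hz⟩
  · subst hx hz
    constructor
    · rintro (rfl | rfl | rfl | rfl)
      · exact ⟨y, axy, ayz.symm, Or.inl h₁⟩
      · exact ⟨y, axy, ayz.symm, Or.inr (h₂.trans Sym2.eq_swap)⟩
      · exact ⟨u, aux.symm, azu, Or.inr h₃⟩
      · exact ⟨u, aux.symm, azu, Or.inl (h₄.trans Sym2.eq_swap)⟩
    · rintro ⟨c, hc1, hc2, hc⟩
      have hcc : c = y ∨ c = u := by
        by_contra hne
        push Not at hne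
        exact hK c y u hc1 hc2 axy ayz.symm aux.symm azu hne.1 hne.2 hyu
      rcases hcc with rfl | rfl <;> rcases hc with hc | hc
      · exact Or.inl (Subtype.ext (hc.trans h₁.symm))
      · exact Or.inr (Or.inl (Subtype.ext (hc.trans (Sym2.eq_swap.trans h₂.symm))))
      · exact Or.inr (Or.inr (Or.inr (Subtype.ext (hc.trans (Sym2.eq_swap.trans h₄.symm)))))
      · exact Or.inr (Or.inr (Or.inl (Subtype.ext (hc.trans h₃.symm))))
  · subst hx hz
    constructor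
    · rintro (rfl | rfl | rfl | rfl)
      · exact ⟨y, ayz.symm, axy, Or.inr h₁⟩
      · exact ⟨y, ayz.symm, axy, Or.inl (h₂.trans Sym2.eq_swap)⟩
      · exact ⟨u, azu, aux.symm, Or.inl h₃⟩
      · exact ⟨u, azu, aux.symm, Or.inr (h₄.trans Sym2.eq_swap)⟩
    · rintro ⟨c, hc1, hc2, hc⟩
      have hcc : c = y ∨ c = u := by
        by_contra hne
        push Not at hne
        exact hK c y u hc1 hc2 ayz.symm axy azu aux.symm hne.1 hne.2 hyu
      rcases hcc with rfl | rfl <;> rcases hc with hc | hc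
      · exact Or.inr (Or.inl (Subtype.ext (hc.trans (Sym2.eq_swap.trans h₂.symm))))
      · exact Or.inl (Subtype.ext (hc.trans h₁.symm))
      · exact Or.inr (Or.inr (Or.inl (Subtype.ext (hc.trans h₃.symm))))
      · exact Or.inr (Or.inr (Or.inr (Subtype.ext (hc.trans (Sym2.eq_swap.trans h₄.symm)))))

theorem four_le {V : Type} (G : SimpleGraph V) (S : Finset G.edgeSet) (x y z u : V)
    (e₁ e₂ e₃ e₄ : G.edgeSet) (h₁ : (e₁ : Sym2 V) = s(x, y)) (h₂ : (e₂ : Sym2 V) = s(y, z))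
    (h₃ : (e₃ : Sym2 V) = s(z, u)) (h₄ : (e₄ : Sym2 V) = s(u, x)) (hxz : x ≠ z) (hyu : y ≠ u)
    (hS : ∀ e, e ∈ S ↔ (e = e₁ ∨ e = e₂ ∨ e = e₃ ∨ e = e₄)) : 4 ≤ S.card := by
  classical
  have hxy : x ≠ y := by
    have := e₁.2
    rw [h₁, SimpleGraph.mem_edgeSet] at this
    exact this.ne
  have hyz : y ≠ z := by
    have := e₂.2
    rw [h₂, SimpleGraph.mem_edgeSet] at this
    exact this.ne
  have hzu : z ≠ u := by
    have := e₃.2
    rw [h₃, SimpleGraph.mem_edgeSet] at this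
    exact this.ne
  have hux : u ≠ x := by
    have := e₄.2
    rw [h₄, SimpleGraph.mem_edgeSet] at this
    exact this.ne
  have d : ∀ e e' : G.edgeSet, ∀ s s' : Sym2 V, (e : Sym2 V) = s → (e' : Sym2 V) = s' → s ≠ s' →
      e ≠ e' := by
    intro e e' s s' h h' hs he
    apply hs
    rw [← h, ← h', he]
  have d12 := d e₁ e₂ _ _ h₁ h₂ (by
    intro h
    rcases Sym2.eq_iff.1 h with ⟨h, _⟩ | ⟨h, _⟩
    · exact hxy h
    · exact hxz h)
  have d13 := d e₁ e₃ _ _ h₁ h₃ (by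
    intro h
    rcases Sym2.eq_iff.1 h with ⟨h, _⟩ | ⟨h, _⟩
    · exact hxz h
    · exact hux h.symm)
  have d14 := d e₁ e₄ _ _ h₁ h₄ (by
    intro h
    rcases Sym2.eq_iff.1 h with ⟨h, _⟩ | ⟨_, h⟩
    · exact hux h.symm
    · exact hyu h)
  have d23 := d e₂ e₃ _ _ h₂ h₃ (by
    intro h
    rcases Sym2.eq_iff.1 h with ⟨h, _⟩ | ⟨h, _⟩
    · exact hyz h
    · exact hyu h)
  have d24 := d e₂ e₄ _ _ h₂ h₄ (by
    intro h
    rcases Sym2.eq_iff.1 h with ⟨h, _⟩ | ⟨h, _⟩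
    · exact hyu h
    · exact hxy h.symm)
  have d34 := d e₃ e₄ _ _ h₃ h₄ (by
    intro h
    rcases Sym2.eq_iff.1 h with ⟨h, _⟩ | ⟨h, _⟩
    · exact hzu h
    · exact hxz h.symm)
  have hsub : ({e₁, e₂, e₃, e₄} : Finset G.edgeSet) ⊆ S := by
    intro e he
    rw [hS e]
    simpa using he
  have h4 : ({e₁, e₂, e₃, e₄} : Finset G.edgeSet).card = 4 := by
    rw [Finset.card_insert_of_notMem (by simp [d12, d13, d14]),
      Finset.card_insert_of_notMem (by simp [d23, d24]),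
      Finset.card_insert_of_notMem (by simp [d34]), Finset.card_singleton]
  rw [← h4]
  exact Finset.card_le_card hsub

theorem face_choice {V : Type} [Fintype V] (G : SimpleGraph V) [Fintype G.edgeSet]
    (hG : ML G) (htf : TF G) (hn : 2 ≤ Fintype.card V)
    (h5 : 5 * Fintype.card V ≤ 3 * Fintype.card G.edgeSet + 5) (p q : V) :
    ∃ (J : Type) (_ : Finite J) (a b : G.edgeSet → J) (f : J) (x y z u : V)
      (e₁ e₂ e₃ e₄ : G.edgeSet), Rep (cyc (V := V) (Subtype.val : G.edgeSet → Sym2 V)) a b ∧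
      (e₁ : Sym2 V) = s(x, y) ∧ (e₂ : Sym2 V) = s(y, z) ∧ (e₃ : Sym2 V) = s(z, u) ∧
      (e₄ : Sym2 V) = s(u, x) ∧ x ≠ z ∧ y ≠ u ∧
      (∀ e, e ∈ star a b f ↔ (e = e₁ ∨ e = e₂ ∨ e = e₃ ∨ e = e₄)) ∧
      ((s(x, z) ≠ s(p, q) ∧ s(y, u) ≠ s(p, q)) ∨
        ∃ c₁ c₂ c₃, G.Adj p c₁ ∧ G.Adj q c₁ ∧ G.Adj p c₂ ∧ G.Adj q c₂ ∧ G.Adj p c₃ ∧
          G.Adj q c₃ ∧ c₁ ≠ c₂ ∧ c₁ ≠ c₃ ∧ c₂ ≠ c₃) := by
  classical
  have hne : Nonempty V := Fintype.card_pos_iff.1 (by omega)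
  have her := edge_rank G
  have hZ := (ml_iff G).1 hG
  have hbot : cyc (V := V) (Subtype.val : G.edgeSet → Sym2 V) ≠ ⊥ := by
    intro h
    rw [h, finrank_bot] at her
    omega
  obtain ⟨m, a, b, hrep, hsne, hm, hsum⟩ :=
    star_rep (cyc (V := V) (Subtype.val : G.edgeSet → Sym2 V)) hZ hbot
  have hE : Fintype.card {x // x ∈ G.edgeSet} = Fintype.card G.edgeSet := rfl
  rw [hE] at hsum
  by_contra hcon
  set small : Finset (Fin m) := univ.filter (fun j => (star a b j).card < 5) with hsm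
  have hdata : ∀ j ∈ small, 4 ≤ (star a b j).card ∧ ∀ e, e ∈ star a b j ↔ ∃ c, G.Adj p c ∧
      G.Adj q c ∧ ((e : Sym2 V) = s(p, c) ∨ (e : Sym2 V) = s(q, c)) := by
    intro j hj
    have hj' := (Finset.mem_filter.1 hj).2
    obtain ⟨x, y, z, u, e₁, e₂, e₃, e₄, h₁, h₂, h₃, h₄, hxz, hyu, hS⟩ :=
      star_four G htf a b j hrep (hsne j) hj'
    refine ⟨four_le G _ x y z u e₁ e₂ e₃ e₄ h₁ h₂ h₃ h₄ hxz hyu hS, ?_⟩
    have hK : ∀ c₁ c₂ c₃, G.Adj p c₁ → G.Adj q c₁ → G.Adj p c₂ → G.Adj q c₂ → G.Adj p c₃ →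
        G.Adj q c₃ → c₁ ≠ c₂ → c₁ ≠ c₃ → c₂ ≠ c₃ → False := by
      intro c₁ c₂ c₃ k1 k2 k3 k4 k5 k6 k7 k8 k9
      exact hcon ⟨Fin m, inferInstance, a, b, j, x, y, z, u, e₁, e₂, e₃, e₄, hrep, h₁, h₂, h₃, h₄,
        hxz, hyu, hS, Or.inr ⟨c₁, c₂, c₃, k1, k2, k3, k4, k5, k6, k7, k8, k9⟩⟩
    by_cases hd : s(x, z) = s(p, q)
    · exact bad_star G _ p q hK x y z u e₁ e₂ e₃ e₄ h₁ h₂ h₃ h₄ hyu hS hd
    · by_cases hd' : s(y, u) = s(p, q)
      · refine bad_star G _ p q hK y z u x e₂ e₃ e₄ e₁ h₂ h₃ h₄ h₁ hxz.symm ?_ hd'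
        intro e
        rw [hS e]
        tauto
      · exact (hcon ⟨Fin m, inferInstance, a, b, j, x, y, z, u, e₁, e₂, e₃, e₄, hrep, h₁, h₂, h₃,
          h₄, hxz, hyu, hS, Or.inl ⟨hd, hd'⟩⟩).elim
  have hs2 : small.card ≤ 2 := by
    rcases small.eq_empty_or_nonempty with h0 | ⟨j0, hj0⟩
    · rw [h0]
      simp
    · obtain ⟨e0, he0⟩ := hsne j0
      have hT := ((hdata j0 hj0).2 e0).1 he0
      refine (Finset.card_le_card (t := {a e0, b e0}) ?_).trans Finset.card_le_two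
      intro j hj
      have he : e0 ∈ star a b j := ((hdata j hj).2 e0).2 hT
      rw [Finset.mem_insert, Finset.mem_singleton]
      rcases mem_star a b j e0 he with h4 | h4
      · exact Or.inl h4.symm
      · exact Or.inr h4.symm
  have hlow : ∑ _j : Fin m, 5 ≤ ∑ j : Fin m, ((star a b j).card + if j ∈ small then 1 else 0) := by
    refine Finset.sum_le_sum fun j _ => ?_
    by_cases hj : j ∈ small
    · rw [if_pos hj]
      have := (hdata j hj).1
      omega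
    · rw [if_neg hj]
      rw [hsm, Finset.mem_filter] at hj
      simp only [Finset.mem_univ, true_and, not_lt] at hj
      omega
  rw [Finset.sum_const, smul_eq_mul, Finset.card_univ, Fintype.card_fin, Finset.sum_add_distrib,
    Finset.sum_ite_mem, Finset.univ_inter, Finset.sum_const, smul_eq_mul, mul_one] at hlow
  omega

end Pool.Agent.H61.TF
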