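import Pool.Agent.H61.TF.Cr
import Pool.Agent.H61.TF.Id
import Pool.Agent.H61.TF.Fc
import Pool.Agent.H32.BD.GF3

set_option autoImplicit false

/-!
A triangle-free planar graph has, for any two different vertices `p, q`, a 3-colouring in which `p` and
`q` have different colours (a triangle-free planar graph plus one edge is 3-colourable: Aksenov;
Jensen and Thomassen; the proof follows Borodin, Kostochka, Lidicky and Yancey).

Proof of `ak_ml`. Minimal counterexample `G, p, q`, `p` and `q` not adjacent (else Groetzsch). `H = G + pq`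
is critical, so `5 n ≤ 3 |E(G)| + 5` by `kyc`. `face_choice` gives a 4-cycle star `x y z u`. If its
diagonals are not `{p, q}`: no path `x v w z` or no path `y v' w' u` (`crossing`), then identify. If
`{x, z} = {p, q}` there is a third common neighbour `t` of `x, z`, so no path `y v' w' u` (`crossing2`),
and `y, u` can be identified.
-/

namespace Pool.Agent.H61.TF

open Finset Pool.Agent.H32.BC Pool.Agent.H32.BD Pool.Agent.H29.Tor

private theorem ak_adj {V : Type} (G : SimpleGraph V) (e : G.edgeSet) (p q : V)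
    (h : (e : Sym2 V) = s(p, q)) : G.Adj p q := by
  have h1 := e.2
  rw [h] at h1
  exact h1

private theorem resolve {V : Type} [Fintype V] [DecidableEq V] (G : SimpleGraph V)
    [Fintype G.edgeSet] (htf : TF G)
    (ih : ∀ (W : Type) [Fintype W], Fintype.card W < Fintype.card V → ∀ H : SimpleGraph W,
      ML H → TF H → ∀ p q : W, p ≠ q → ∃ C : H.Coloring (Fin 3), C p ≠ C q)
    (J : Type) [Finite J] (a b : G.edgeSet → J) (f : J) (x y z u : V) (e₁ e₂ e₃ e₄ : G.edgeSet)
    (hrep : Rep (cyc (V := V) (Subtype.val : G.edgeSet → Sym2 V)) a b)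
    (h₁ : (e₁ : Sym2 V) = s(x, y)) (h₂ : (e₂ : Sym2 V) = s(y, z)) (h₃ : (e₃ : Sym2 V) = s(z, u))
    (h₄ : (e₄ : Sym2 V) = s(u, x)) (hxz : x ≠ z) (hyu : y ≠ u)
    (hstar : ∀ e, e ∈ star a b f ↔ (e = e₁ ∨ e = e₂ ∨ e = e₃ ∨ e = e₄))
    (p q : V) (hpq : p ≠ q) (hd : s(x, z) ≠ s(p, q)) (hd' : s(y, u) ≠ s(p, q)) :
    ∃ C : G.Coloring (Fin 3), C p ≠ C q := by
  have axy := ak_adj _ _ _ _ h₁
  have ayz := ak_adj _ _ _ _ h₂
  have azu := ak_adj _ _ _ _ h₃
  have aux := ak_adj _ _ _ _ h₄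
  by_cases hno : ∀ v w, G.Adj x v → G.Adj v w → ¬ G.Adj w z
  · refine identify2 G htf ih J a b f x y z u e₁ e₂ e₃ e₄ hrep h₁ h₂ h₃ h₄ hxz hyu
      hstar hno p q hpq ⟨?_, ?_⟩
    · rintro ⟨rfl, rfl⟩
      exact hd rfl
    · rintro ⟨rfl, rfl⟩
      exact hd Sym2.eq_swap
  by_cases hno' : ∀ v w, G.Adj y v → G.Adj v w → ¬ G.Adj w u
  · refine identify2 G htf ih J a b f y z u x e₂ e₃ e₄ e₁ hrep h₂ h₃ h₄ h₁ hyu
      (Ne.symm hxz) ?_ hno' p q hpq ⟨?_, ?_⟩
    · intro e
      rw [hstar e]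
      tauto
    · rintro ⟨rfl, rfl⟩
      exact hd' rfl
    · rintro ⟨rfl, rfl⟩
      exact hd' Sym2.eq_swap
  push Not at hno hno'
  obtain ⟨v, w, axv, avw, awz⟩ := hno
  obtain ⟨v', w', ayv', avw', awu'⟩ := hno'
  exfalso
  have T : ∀ p q r, G.Adj p q → G.Adj q r → G.Adj p r → False := fun p q r h1 h2 h3 =>
    htf p q r h1 h2 h3
  have nxy : ¬ x = y := axy.ne
  have nxu : ¬ x = u := aux.ne'
  have nxv : ¬ x = v := axv.ne
  have nxw : ¬ x = w := fun h => by
    subst h
    exact T _ _ _ axy ayz awz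
  have nxv' : ¬ x = v' := fun h => by
    subst h
    exact T _ _ _ avw' awu' aux.symm
  have nxw' : ¬ x = w' := fun h => by
    subst h
    exact T _ _ _ ayv' avw' axy.symm
  have nyz : ¬ y = z := ayz.ne
  have nyv : ¬ y = v := fun h => by
    subst h
    exact T _ _ _ avw awz ayz
  have nyw : ¬ y = w := fun h => by
    subst h
    exact T _ _ _ axv avw axy
  have nyv' : ¬ y = v' := ayv'.ne
  have nyw' : ¬ y = w' := fun h => by
    subst h
    exact T _ _ _ axy awu' aux.symm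
  have nzu : ¬ z = u := azu.ne
  have nzv : ¬ z = v := fun h => by
    subst h
    exact T _ _ _ axy ayz axv
  have nzw : ¬ z = w := awz.ne'
  have nzv' : ¬ z = v' := fun h => by
    subst h
    exact T _ _ _ avw' awu' azu
  have nzw' : ¬ z = w' := fun h => by
    subst h
    exact T _ _ _ ayv' avw' ayz
  have nuv : ¬ u = v := fun h => by
    subst h
    exact T _ _ _ avw awz azu.symm
  have nuw : ¬ u = w := fun h => by
    subst h
    exact T _ _ _ axv avw aux.symm
  have nuv' : ¬ u = v' := fun h => by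
    subst h
    exact T _ _ _ axy ayv' aux.symm
  have nuw' : ¬ u = w' := awu'.ne'
  have nvw : ¬ v = w := avw.ne
  have nvv' : ¬ v = v' := fun h => by
    subst h
    exact T _ _ _ axy ayv' axv
  have nvw' : ¬ v = w' := fun h => by
    subst h
    exact T _ _ _ axv awu' aux.symm
  have nwv' : ¬ w = v' := fun h => by
    subst h
    exact T _ _ _ ayv' awz ayz
  have nww' : ¬ w = w' := fun h => by
    subst h
    exact T _ _ _ awz azu awu'
  have nv'w' : ¬ v' = w' := avw'.ne
  refine crossing (Subtype.val : G.edgeSet → Sym2 V) x y z u v w v' w' e₁ e₂ e₃ e₄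
    ⟨s(x, v), axv⟩ ⟨s(v, w), avw⟩ ⟨s(w, z), awz⟩ ⟨s(y, v'), ayv'⟩ ⟨s(v', w'), avw'⟩
    ⟨s(w', u), awu'⟩ h₁ h₂ h₃ h₄ rfl rfl rfl rfl rfl rfl ?_ a b hrep f hstar
  simp only [List.nodup_cons, List.mem_cons, List.not_mem_nil, or_false, not_or,
    not_false_eq_true, List.nodup_nil, and_true]
  exact ⟨⟨nxy, hxz, nxu, nxv, nxw, nxv', nxw'⟩, ⟨nyz, hyu, nyv, nyw, nyv', nyw'⟩,
    ⟨nzu, nzv, nzw, nzv', nzw'⟩, ⟨nuv, nuw, nuv', nuw'⟩, ⟨nvw, nvv', nvw'⟩, ⟨nwv', nww'⟩,
    nv'w'⟩

private theorem resolve2 {V : Type} [Fintype V] [DecidableEq V] (G : SimpleGraph V)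
    [Fintype G.edgeSet] (htf : TF G)
    (ih : ∀ (W : Type) [Fintype W], Fintype.card W < Fintype.card V → ∀ H : SimpleGraph W,
      ML H → TF H → ∀ p q : W, p ≠ q → ∃ C : H.Coloring (Fin 3), C p ≠ C q)
    (J : Type) [Finite J] (a b : G.edgeSet → J) (f : J) (x y z u : V) (e₁ e₂ e₃ e₄ : G.edgeSet)
    (hrep : Rep (cyc (V := V) (Subtype.val : G.edgeSet → Sym2 V)) a b)
    (h₁ : (e₁ : Sym2 V) = s(x, y)) (h₂ : (e₂ : Sym2 V) = s(y, z)) (h₃ : (e₃ : Sym2 V) = s(z, u))
    (h₄ : (e₄ : Sym2 V) = s(u, x)) (hxz : x ≠ z) (hyu : y ≠ u)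
    (hstar : ∀ e, e ∈ star a b f ↔ (e = e₁ ∨ e = e₂ ∨ e = e₃ ∨ e = e₄))
    (p q : V) (hpq : p ≠ q) (hd : s(x, z) = s(p, q)) (t : V) (ty : t ≠ y) (tu : t ≠ u)
    (axt : G.Adj x t) (azt : G.Adj z t) :
    ∃ C : G.Coloring (Fin 3), C p ≠ C q := by
  have axy := ak_adj _ _ _ _ h₁
  have ayz := ak_adj _ _ _ _ h₂
  have azu := ak_adj _ _ _ _ h₃
  have aux := ak_adj _ _ _ _ h₄
  have hpy : p ≠ y := by
    rcases Sym2.eq_iff.1 hd with ⟨h, _⟩ | ⟨_, h⟩
    · rw [← h]
      exact axy.ne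
    · rw [← h]
      exact ayz.ne'
  have hpu : p ≠ u := by
    rcases Sym2.eq_iff.1 hd with ⟨h, _⟩ | ⟨_, h⟩
    · rw [← h]
      exact aux.ne'
    · rw [← h]
      exact azu.ne
  refine identify2 G htf ih J a b f y z u x e₂ e₃ e₄ e₁ hrep h₂ h₃ h₄ h₁ hyu
    (Ne.symm hxz) ?_ ?_ p q hpq ⟨fun h => hpy h.1, fun h => hpu h.1⟩
  · intro e
    rw [hstar e]
    tauto
  intro v' w' ayv' avw' awu'
  have T : ∀ p q r, G.Adj p q → G.Adj q r → G.Adj p r → False := fun p q r h1 h2 h3 =>
    htf p q r h1 h2 h3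
  have nxy : ¬ x = y := axy.ne
  have nxu : ¬ x = u := aux.ne'
  have nxt : ¬ x = t := axt.ne
  have nxv' : ¬ x = v' := fun h => by
    subst h
    exact T _ _ _ avw' awu' aux.symm
  have nxw' : ¬ x = w' := fun h => by
    subst h
    exact T _ _ _ ayv' avw' axy.symm
  have nyz : ¬ y = z := ayz.ne
  have nyt : ¬ y = t := fun h => ty h.symm
  have nyv' : ¬ y = v' := ayv'.ne
  have nyw' : ¬ y = w' := fun h => by
    subst h
    exact T _ _ _ axy awu' aux.symm
  have nzu : ¬ z = u := azu.ne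
  have nzt : ¬ z = t := azt.ne
  have nzv' : ¬ z = v' := fun h => by
    subst h
    exact T _ _ _ avw' awu' azu
  have nzw' : ¬ z = w' := fun h => by
    subst h
    exact T _ _ _ ayv' avw' ayz
  have nut : ¬ u = t := fun h => tu h.symm
  have nuv' : ¬ u = v' := fun h => by
    subst h
    exact T _ _ _ axy ayv' aux.symm
  have nuw' : ¬ u = w' := awu'.ne'
  have ntv' : ¬ t = v' := fun h => by
    subst h
    exact T _ _ _ axy ayv' axt
  have ntw' : ¬ t = w' := fun h => by
    subst h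
    exact T _ _ _ axt awu' aux.symm
  have nv'w' : ¬ v' = w' := avw'.ne
  refine crossing2 (Subtype.val : G.edgeSet → Sym2 V) x y z u t v' w' e₁ e₂ e₃ e₄
    ⟨s(x, t), axt⟩ ⟨s(t, z), azt.symm⟩ ⟨s(y, v'), ayv'⟩ ⟨s(v', w'), avw'⟩
    ⟨s(w', u), awu'⟩ h₁ h₂ h₃ h₄ rfl rfl rfl rfl rfl ?_ a b hrep f hstar
  simp only [List.nodup_cons, List.mem_cons, List.not_mem_nil, or_false, not_or,
    not_false_eq_true, List.nodup_nil, and_true]
  exact ⟨⟨nxy, hxz, nxu, nxt, nxv', nxw'⟩, ⟨nyz, hyu, nyt, nyv', nyw'⟩,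
    ⟨nzu, nzt, nzv', nzw'⟩, ⟨nut, nuv', nuw'⟩, ⟨ntv', ntw'⟩, nv'w'⟩

open Classical in
private theorem ak_eb {V : Type} [Fintype V] (G : SimpleGraph V) [Fintype G.edgeSet] :
    eb G univ univ ≤ 2 * Fintype.card G.edgeSet := by
  unfold eb
  set A := ((univ : Finset V) ×ˢ (univ : Finset V)).filter (fun p => G.Adj p.1 p.2) with hA
  have h1 : A.card ≤ 2 * (A.image (fun p : V × V => s(p.1, p.2))).card := by
    refine Finset.card_le_mul_card_image A 2 ?_
    intro e he
    obtain ⟨⟨x, y⟩, hxy, rfl⟩ := Finset.mem_image.1 he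
    have h2 : A.filter (fun p : V × V => s(p.1, p.2) = s(x, y)) ⊆ {(x, y), (y, x)} := by
      intro p hp
      have h3 := (Finset.mem_filter.1 hp).2
      rw [Finset.mem_insert, Finset.mem_singleton]
      rcases Sym2.eq_iff.1 h3 with h | h
      · left; exact Prod.ext h.1 h.2
      · right; exact Prod.ext h.1 h.2
    exact (Finset.card_le_card h2).trans Finset.card_le_two
  rw [← Set.toFinset_card]
  refine h1.trans (Nat.mul_le_mul_left 2 (Finset.card_le_card ?_))
  intro e he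
  obtain ⟨⟨x, y⟩, hxy, rfl⟩ := Finset.mem_image.1 he
  rw [hA, Finset.mem_filter] at hxy
  rw [Set.mem_toFinset]
  exact (SimpleGraph.mem_edgeSet G).2 hxy.2

theorem ak_ml (n : ℕ) : ∀ (V : Type) [Fintype V], Fintype.card V < n →
    ∀ G : SimpleGraph V, ML G → TF G → ∀ p q : V, p ≠ q →
      ∃ C : G.Coloring (Fin 3), C p ≠ C q := by
  induction n with
  | zero =>
    intro V _ h
    exact absurd h (Nat.not_lt_zero _)
  | succ n ih =>
    intro V _ hV G hML htf p q hpq
    classical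
    by_contra hnc
    have ih' : ∀ (W : Type) [Fintype W], Fintype.card W < Fintype.card V →
        ∀ H : SimpleGraph W, ML H → TF H → ∀ p q : W, p ≠ q →
          ∃ C : H.Coloring (Fin 3), C p ≠ C q := fun W _ hW H h1 h2 =>
      ih W (lt_of_lt_of_le hW (Nat.lt_succ_iff.1 hV)) H h1 h2
    have hF : Fintype G.edgeSet := Fintype.ofFinite _
    have hcr : Crit (G ⊔ SimpleGraph.edge p q) := by
      refine ⟨?_, fun R hR => ?_⟩
      · rintro ⟨C⟩
        apply hnc
        refine ⟨SimpleGraph.Coloring.mk (fun v => C v) (fun {v w} h => C.valid (Or.inl h)), ?_⟩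
        refine C.valid (Or.inr ?_)
        rw [SimpleGraph.edge_adj]
        exact ⟨Or.inl ⟨rfl, rfl⟩, hpq⟩
      have hcard : Fintype.card {v // v ∈ R} < Fintype.card V := by
        rw [Fintype.card_coe]
        exact Finset.card_lt_card (Finset.ssubset_univ_iff.2 hR)
      let f : {v // v ∈ R} ↪ V := Function.Embedding.subtype (fun v => v ∈ R)
      have hML' := ml_comap G hML f
      have hTF' : TF (G.comap f) := fun a b c h1 h2 h3 => htf a b c h1 h2 h3
      by_cases hR2 : p ∈ R ∧ q ∈ R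
      · obtain ⟨C, hC⟩ := ih' {v // v ∈ R} hcard (G.comap f) hML' hTF' ⟨p, hR2.1⟩ ⟨q, hR2.2⟩
          (fun h => hpq (congrArg Subtype.val h))
        refine ⟨fun v => if hv : v ∈ R then C ⟨v, hv⟩ else 0, ?_⟩
        intro v hv w hw hvw
        simp only [dif_pos hv, dif_pos hw]
        rcases hvw with h | h
        · exact C.valid (show (G.comap f).Adj ⟨v, hv⟩ ⟨w, hw⟩ from h)
        · rw [SimpleGraph.edge_adj] at h
          rcases h.1 with ⟨h1, h2⟩ | ⟨h1, h2⟩
          · subst h1 h2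
            exact hC
          · subst h1 h2
            exact hC.symm
      · obtain ⟨C⟩ := groetzsch_ml (Fintype.card {v // v ∈ R} + 1) {v // v ∈ R}
          (Nat.lt_succ_self _) (G.comap f) hML' hTF'
        refine ⟨fun v => if hv : v ∈ R then C ⟨v, hv⟩ else 0, ?_⟩
        intro v hv w hw hvw
        simp only [dif_pos hv, dif_pos hw]
        rcases hvw with h | h
        · exact C.valid (show (G.comap f).Adj ⟨v, hv⟩ ⟨w, hw⟩ from h)
        · rw [SimpleGraph.edge_adj] at h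
          exfalso
          apply hR2
          rcases h.1 with ⟨h1, h2⟩ | ⟨h1, h2⟩
          · subst h1 h2
            exact ⟨hv, hw⟩
          · subst h1 h2
            exact ⟨hw, hv⟩
    have hP := kyc _ hcr
    have hsup := eb_sup_edge G p q univ
    have heb := ak_eb G
    have hn2 : 2 ≤ Fintype.card V := by
      have := Fintype.one_lt_card_iff.2 ⟨p, q, hpq⟩
      omega
    unfold P at hP
    rw [Finset.card_univ] at hP
    have h5 : 5 * Fintype.card V ≤ 3 * Fintype.card G.edgeSet + 5 := by omega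
    obtain ⟨J, hJ, a, b, f, x, y, z, u, e₁, e₂, e₃, e₄, hrep, h₁, h₂, h₃, h₄, hxz, hyu,
      hstar, hor⟩ := face_choice G hML htf hn2 h5 p q
    apply hnc
    by_cases hd : s(x, z) = s(p, q)
    · rcases hor with ⟨hor, _⟩ | ⟨c₁, c₂, c₃, k1, k2, k3, k4, k5, k6, k7, k8, k9⟩
      · exact (hor hd).elim
      have ht : ∃ t, t ≠ y ∧ t ≠ u ∧ G.Adj p t ∧ G.Adj q t := by
        by_cases g1 : c₁ ≠ y ∧ c₁ ≠ u
        · exact ⟨c₁, g1.1, g1.2, k1, k2⟩
        by_cases g2 : c₂ ≠ y ∧ c₂ ≠ u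
        · exact ⟨c₂, g2.1, g2.2, k3, k4⟩
        refine ⟨c₃, ?_, ?_, k5, k6⟩
        · rintro rfl
          have w1 : c₁ = u := by
            by_contra h
            exact g1 ⟨k8, h⟩
          have w2 : c₂ = u := by
            by_contra h
            exact g2 ⟨k9, h⟩
          exact k7 (w1.trans w2.symm)
        · rintro rfl
          have w1 : c₁ = y := by
            by_contra h
            exact g1 ⟨h, k8⟩
          have w2 : c₂ = y := by
            by_contra h
            exact g2 ⟨h, k9⟩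
          exact k7 (w1.trans w2.symm)
      obtain ⟨t, ty, tu, apt, aqt⟩ := ht
      have hxt : G.Adj x t ∧ G.Adj z t := by
        rcases Sym2.eq_iff.1 hd with ⟨h1, h2⟩ | ⟨h1, h2⟩
        · rw [h1, h2]
          exact ⟨apt, aqt⟩
        · rw [h1, h2]
          exact ⟨aqt, apt⟩
      exact resolve2 G htf ih' J a b f x y z u e₁ e₂ e₃ e₄ hrep h₁ h₂ h₃ h₄ hxz hyu hstar p q hpq
        hd t ty tu hxt.1 hxt.2
    · by_cases hd' : s(y, u) = s(p, q)
      · rcases hor with ⟨_, hor⟩ | ⟨c₁, c₂, c₃, k1, k2, k3, k4, k5, k6, k7, k8, k9⟩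
        · exact (hor hd').elim
        have ht : ∃ t, t ≠ z ∧ t ≠ x ∧ G.Adj p t ∧ G.Adj q t := by
          by_cases g1 : c₁ ≠ z ∧ c₁ ≠ x
          · exact ⟨c₁, g1.1, g1.2, k1, k2⟩
          by_cases g2 : c₂ ≠ z ∧ c₂ ≠ x
          · exact ⟨c₂, g2.1, g2.2, k3, k4⟩
          refine ⟨c₃, ?_, ?_, k5, k6⟩
          · rintro rfl
            have w1 : c₁ = x := by
              by_contra h
              exact g1 ⟨k8, h⟩
            have w2 : c₂ = x := by
              by_contra h
              exact g2 ⟨k9, h⟩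
            exact k7 (w1.trans w2.symm)
          · rintro rfl
            have w1 : c₁ = z := by
              by_contra h
              exact g1 ⟨h, k8⟩
            have w2 : c₂ = z := by
              by_contra h
              exact g2 ⟨h, k9⟩
            exact k7 (w1.trans w2.symm)
        obtain ⟨t, tz, tx, apt, aqt⟩ := ht
        have hyt : G.Adj y t ∧ G.Adj u t := by
          rcases Sym2.eq_iff.1 hd' with ⟨h1, h2⟩ | ⟨h1, h2⟩
          · rw [h1, h2]
            exact ⟨apt, aqt⟩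
          · rw [h1, h2]
            exact ⟨aqt, apt⟩
        exact resolve2 G htf ih' J a b f y z u x e₂ e₃ e₄ e₁ hrep h₂ h₃ h₄ h₁ hyu hxz.symm
          (fun e => by rw [hstar e]; tauto) p q hpq hd' t tz tx hyt.1 hyt.2
      · exact resolve G htf ih' J a b f x y z u e₁ e₂ e₃ e₄ hrep h₁ h₂ h₃ h₄ hxz hyu hstar p q
          hpq hd hd'

/-- Aksenov's theorem: in a triangle-free planar graph two different vertices can be given different
colours by a 3-colouring. -/
theorem ak {V : Type} [Fintype V] (G : SimpleGraph V) (hG : IsPlanar G)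
    (h3 : G.CliqueFree 3) (p q : V) (hpq : p ≠ q) : ∃ C : G.Coloring (Fin 3), C p ≠ C q := by
  classical
  have : Fintype G.edgeSet := Fintype.ofFinite _
  refine ak_ml (Fintype.card V + 1) V (Nat.lt_succ_self _) G
    ((ml_iff G).2 (planar_cut G hG)) ?_ p q hpq
  intro a b c hab hbc hac
  exact h3 {a, b, c} (SimpleGraph.is3Clique_triple_iff.2 ⟨hab, hac, hbc⟩)

end Pool.Agent.H61.TF
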