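import Pool.Agent.H32.BD.GD

set_option autoImplicit false

/-!
Crossing lemma (after `Pool.Agent.H32.BD.crossing`): a face `x y z u` of length four, a path
`x t z` and a path `y v' w' u` on different vertices cannot exist.
-/

namespace Pool.Agent.H61.TF

open Finset Pool.Agent.H32.BC Pool.Agent.H32.BD

theorem crossing2 {V E J : Type} [Fintype E] (ends : E → Sym2 V) (x y z u t v' w' : V)
    (e₁ e₂ e₃ e₄ p₁ p₂ r₁ r₂ r₃ : E) (h₁ : ends e₁ = s(x, y)) (h₂ : ends e₂ = s(y, z))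
    (h₃ : ends e₃ = s(z, u)) (h₄ : ends e₄ = s(u, x)) (hp₁ : ends p₁ = s(x, t))
    (hp₂ : ends p₂ = s(t, z)) (hr₁ : ends r₁ = s(y, v'))
    (hr₂ : ends r₂ = s(v', w')) (hr₃ : ends r₃ = s(w', u))
    (hd : [x, y, z, u, t, v', w'].Nodup) (a b : E → J) (hrep : Rep (cyc ends) a b) (f : J)
    (hstar : ∀ e, e ∈ star a b f ↔ (e = e₁ ∨ e = e₂ ∨ e = e₃ ∨ e = e₄)) : False := by
  classical
  simp only [List.nodup_cons, List.mem_cons, List.not_mem_nil, or_false, not_or, not_false_eq_true,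
    List.nodup_nil, and_true] at hd
  obtain ⟨⟨nxy, nxz, nxu, nxt, nxv', nxw'⟩, ⟨nyz, nyu, nyt, nyv', nyw'⟩,
    ⟨nzu, nzt, nzv', nzw'⟩, ⟨nut, nuv', nuw'⟩, ⟨ntv', ntw'⟩, nv'w'⟩ := hd
  have hmem : ∀ e0 : E, ∀ t : V,
      ∑ e, (Pi.single e0 (1 : ZMod 2) : E → ZMod 2) e * bd (ends e) t = bd (ends e0) t := by
    intro e0 t
    rw [Finset.sum_eq_single e0]
    · rw [Pi.single_eq_same, one_mul]
    · intro e _ he
      rw [Pi.single_eq_of_ne he, zero_mul]
    · intro h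
      exact absurd (mem_univ e0) h
  set Z1 : E → ZMod 2 := Pi.single e₁ 1 + Pi.single e₂ 1 + Pi.single p₁ 1 + Pi.single p₂ 1
    with hZ1
  set Z2 : E → ZMod 2 := Pi.single e₂ 1 + Pi.single e₃ 1 + Pi.single r₁ 1 + Pi.single r₂ 1 +
    Pi.single r₃ 1 with hZ2
  have hdec : ∀ X Y Z V W : ZMod 2, (X + Y) + (Y + Z) + (X + V) + (V + W) + (W + Z) = 0 := by
    decide
  have hdec2 : ∀ X Y Z V : ZMod 2, (X + Y) + (Y + Z) + (X + V) + (V + Z) = 0 := by
    decide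
  have hZ1m : Z1 ∈ cyc ends := by
    intro s
    simp only [hZ1, Pi.add_apply, add_mul, Finset.sum_add_distrib, hmem]
    rw [h₁, h₂, hp₁, hp₂, bd_pair _ _ _ nxy, bd_pair _ _ _ nyz, bd_pair _ _ _ nxt,
      bd_pair _ _ _ (Ne.symm nzt)]
    exact hdec2 _ _ _ _
  have hZ2m : Z2 ∈ cyc ends := by
    intro s
    simp only [hZ2, Pi.add_apply, add_mul, Finset.sum_add_distrib, hmem]
    rw [h₂, h₃, hr₁, hr₂, hr₃, bd_pair _ _ _ nyz, bd_pair _ _ _ nzu, bd_pair _ _ _ nyv',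
      bd_pair _ _ _ nv'w', bd_pair _ _ _ (Ne.symm nuw')]
    exact hdec _ _ _ _ _
  -- the nine edges are different
  set L : List E := [e₁, e₂, e₃, e₄, p₁, p₂, r₁, r₂, r₃] with hL
  have hLn : L.Nodup := by
    apply List.Nodup.of_map ends
    simp only [hL, List.map_cons, List.map_nil, h₁, h₂, h₃, h₄, hp₁, hp₂, hr₁, hr₂, hr₃]
    simp only [List.nodup_cons, List.mem_cons, List.not_mem_nil, or_false, not_or,
      not_false_eq_true, List.nodup_nil, and_true, Sym2.eq_iff, not_and]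
    have h_0 := Ne.symm nxy
    have h_1 := Ne.symm nxz
    have h_2 := Ne.symm nxu
    have h_3 := Ne.symm nxt
    have h_5 := Ne.symm nxv'
    have h_6 := Ne.symm nxw'
    have h_7 := Ne.symm nyz
    have h_8 := Ne.symm nyu
    have h_9 := Ne.symm nyt
    have h_11 := Ne.symm nyv'
    have h_12 := Ne.symm nyw'
    have h_13 := Ne.symm nzu
    have h_14 := Ne.symm nzt
    have h_16 := Ne.symm nzv'
    have h_17 := Ne.symm nzw'
    have h_18 := Ne.symm nut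
    have h_20 := Ne.symm nuv'
    have h_21 := Ne.symm nuw'
    have h_23 := Ne.symm ntv'
    have h_24 := Ne.symm ntw'
    have h_27 := Ne.symm nv'w'
    simp_all
  have hLn' := hLn
  rw [hL] at hLn'
  simp only [List.nodup_cons, List.mem_cons, List.not_mem_nil, or_false, not_or,
    not_false_eq_true, List.nodup_nil, and_true] at hLn'
  obtain ⟨⟨a12, a13, a14, a15, a16, a18, a19, a10⟩, ⟨a23, a24, a25, a26, a28, a29, a20⟩,
    ⟨a34, a35, a36, a38, a39, a30⟩, ⟨a45, a46, a48, a49, a40⟩, _⟩ := hLn'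
  have z11 : Z1 e₁ = 1 := by
    simp [hZ1, a12, a15, a16]
  have z12 : Z1 e₂ = 1 := by
    simp [hZ1, Ne.symm a12, a25, a26]
  have z13 : Z1 e₃ = 0 := by
    simp [hZ1, Ne.symm a13, Ne.symm a23, a35, a36]
  have z14 : Z1 e₄ = 0 := by
    simp [hZ1, Ne.symm a14, Ne.symm a24, a45, a46]
  have z21 : Z2 e₁ = 0 := by
    simp [hZ2, a12, a13, a18, a19, a10]
  have z22 : Z2 e₂ = 1 := by
    simp [hZ2, a23, a28, a29, a20]
  have z23 : Z2 e₃ = 1 := by
    simp [hZ2, Ne.symm a23, a38, a39, a30]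
  have z24 : Z2 e₄ = 0 := by
    simp [hZ2, Ne.symm a24, Ne.symm a34, a48, a49, a40]
  have zout : ∀ e, e ∉ L → Z1 e = 0 ∧ Z2 e = 0 := by
    intro e he
    simp only [hL, List.mem_cons, List.not_mem_nil, or_false, not_or] at he
    obtain ⟨b1, b2, b3, b4, b5, b6, b8, b9, b10⟩ := he
    constructor
    · simp [hZ1, b1, b2, b5, b6]
    · simp [hZ2, b2, b3, b8, b9, b10]
  obtain ⟨q, hq⟩ := (hrep Z1).1 hZ1m
  obtain ⟨q', hq'⟩ := (hrep Z2).1 hZ2m
  set Q : J → ZMod 2 := fun j => (q j + q f) * (1 + (q' j + q' f)) with hQ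
  set ζ : E → ZMod 2 := fun e => Q (a e) + Q (b e) with hζ
  have hζm : ζ ∈ cyc ends := (hrep ζ).2 ⟨Q, fun e => rfl⟩
  have d1 : ∀ A B C A' B' C' : ZMod 2, A + B = 0 → A' + B' = 0 →
      (A + C) * (1 + (A' + C')) + (B + C) * (1 + (B' + C')) = 0 := by decide
  have d2 : ∀ B C B' C' : ZMod 2,
      (C + C) * (1 + (C' + C')) + (B + C) * (1 + (B' + C')) = (C + B) * (1 + (C' + B')) := by
    decide
  have d3 : ∀ B C B' C' : ZMod 2,
      (B + C) * (1 + (B' + C')) + (C + C) * (1 + (C' + C')) = (B + C) * (1 + (B' + C')) := by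
    decide
  have hζ0 : ∀ e, Z1 e = 0 → Z2 e = 0 → ζ e = 0 := by
    intro e h1 h2
    rw [hq e] at h1
    rw [hq' e] at h2
    exact d1 _ _ _ _ _ _ h1 h2
  have hζs : ∀ e, e ∈ star a b f → ζ e = Z1 e * (1 + Z2 e) := by
    intro e he
    rw [Pool.Agent.H32.BD.star, mem_filter] at he
    rw [hq e, hq' e]
    rcases he.2 with ⟨h1, _⟩ | ⟨_, h1⟩
    · simp only [hζ, hQ, h1]
      exact d2 _ _ _ _
    · simp only [hζ, hQ, h1]
      exact d3 _ _ _ _
  have c1 : ζ e₁ = 1 := by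
    rw [hζs e₁ ((hstar e₁).2 (Or.inl rfl)), z11, z21]
    decide
  have c2 : ζ e₂ = 0 := by
    rw [hζs e₂ ((hstar e₂).2 (Or.inr (Or.inl rfl))), z12, z22]
    decide
  have c3 : ζ e₃ = 0 := by
    rw [hζs e₃ ((hstar e₃).2 (Or.inr (Or.inr (Or.inl rfl)))), z13, z23]
    decide
  have c4 : ζ e₄ = 0 := by
    rw [hζs e₄ ((hstar e₄).2 (Or.inr (Or.inr (Or.inr rfl)))), z14, z24]
    decide
  have key : ∀ s, ∑ e, ζ e * bd (ends e) s = (L.map (fun e => ζ e * bd (ends e) s)).sum := by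
    intro s
    rw [← List.sum_toFinset _ hLn]
    symm
    apply Finset.sum_subset (Finset.subset_univ _)
    intro e _ he
    rw [List.mem_toFinset] at he
    obtain ⟨h1, h2⟩ := zout e he
    rw [hζ0 e h1 h2, zero_mul]
  have par : ∀ s, ζ p₁ * bd s(x, t) s + (ζ p₂ * bd s(t, z) s +
      (ζ r₁ * bd s(y, v') s + (ζ r₂ * bd s(v', w') s + ζ r₃ * bd s(w', u) s))) =
      bd s(x, y) s := by
    intro s
    have h0 : ∑ e, ζ e * bd (ends e) s = 0 := hζm s
    rw [key s] at h0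
    simp only [hL, List.map_cons, List.map_nil, List.sum_cons, List.sum_nil, h₁, h₂, h₃, h₄, hp₁,
      hp₂, hr₁, hr₂, hr₃, c1, c2, c3, c4, one_mul, zero_mul, zero_add, add_zero] at h0
    have d4 : ∀ A B : ZMod 2, A + B = 0 → B = A := by decide
    exact d4 _ _ h0
  have hy := par y
  rw [bd_pair _ _ _ nxy, bd_pair _ _ _ nxt, bd_pair _ _ _ (Ne.symm nzt),
    bd_pair _ _ _ nyv', bd_pair _ _ _ nv'w', bd_pair _ _ _ (Ne.symm nuw')] at hy
  have hv' := par v'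
  rw [bd_pair _ _ _ nxy, bd_pair _ _ _ nxt, bd_pair _ _ _ (Ne.symm nzt),
    bd_pair _ _ _ nyv', bd_pair _ _ _ nv'w', bd_pair _ _ _ (Ne.symm nuw')] at hv'
  have hw' := par w'
  rw [bd_pair _ _ _ nxy, bd_pair _ _ _ nxt, bd_pair _ _ _ (Ne.symm nzt),
    bd_pair _ _ _ nyv', bd_pair _ _ _ nv'w', bd_pair _ _ _ (Ne.symm nuw')] at hw'
  have hu := par u
  rw [bd_pair _ _ _ nxy, bd_pair _ _ _ nxt, bd_pair _ _ _ (Ne.symm nzt),
    bd_pair _ _ _ nyv', bd_pair _ _ _ nv'w', bd_pair _ _ _ (Ne.symm nuw')] at hu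
  simp only [if_neg (Ne.symm nxy), if_neg nyz, if_neg nyt, if_neg nyv', if_neg nyw',
    if_neg nyu, if_true, add_zero, zero_add, mul_zero, mul_one] at hy
  simp only [if_neg (Ne.symm nxv'), if_neg (Ne.symm nyv'), if_neg (Ne.symm ntv'),
    if_neg (Ne.symm nzv'), if_neg nv'w', if_neg (Ne.symm nuv'),
    if_true, add_zero, zero_add, mul_zero, mul_one] at hv'
  simp only [if_neg (Ne.symm nxw'), if_neg (Ne.symm nyw'), if_neg (Ne.symm ntw'),
    if_neg (Ne.symm nzw'), if_neg (Ne.symm nv'w'), if_neg (Ne.symm nuw'),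
    if_true, add_zero, zero_add, mul_zero, mul_one] at hw'
  simp only [if_neg (Ne.symm nxu), if_neg (Ne.symm nyu), if_neg nut,
    if_neg (Ne.symm nzu), if_neg nuv', if_neg nuw', if_true, add_zero, zero_add, mul_zero,
    mul_one] at hu
  have d5 : ∀ A B C : ZMod 2, A = 1 → A + B = 0 → B + C = 0 → C = 0 → False := by decide
  exact d5 _ _ _ hy hv' hw' hu

end Pool.Agent.H61.TF
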