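import Pool.Agent.H61.TF.Kt
import Pool.Agent.H32.BC.Gen
import Pool.Agent.H32.BD.GF3

set_option autoImplicit false

/-!
`leaf_count`: if for any two vertices `a, b` at most `λ` vertices have exactly the neighbours `a, b`, there
is a 3-colouring in which every class of size `k` satisfies `2 k ≤ n` or
`k + 4 + 3 λ ≤ (2 + λ) (n - k)`.

Proof. `gen`. Let `I` be a class and `{a v, b v}` the chosen pairs of neighbours; suppose there are at
most `n - |I| - 3` pairs. Each is chosen by at most `λ` vertices of degree 2, and at most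
`2 (n - |I|) - 4` vertices of `I` have a third neighbour, as `2 |I| + t ≤ |E| ≤ 2 n - 4`.
-/

namespace Pool.Agent.H61.TF

open Finset Pool.Agent.H32.BC Pool.Agent.H32.BD Pool.Agent.H29.Tor

/-- an independent set `I` with at least two neighbours for every vertex, `T` the vertices of `I` with a
third neighbour -/
private theorem third_le {V : Type} [Fintype V] [DecidableEq V] (G : SimpleGraph V)
    (hML : ML G) (htf : TF G) (hn : 3 ≤ Fintype.card V) (I T : Finset V) (hT : T ⊆ I)
    (hI : ∀ u ∈ I, ∀ v ∈ I, ¬ G.Adj u v) (a b d : V → V)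
    (hab : ∀ v ∈ I, a v ≠ b v ∧ G.Adj v (a v) ∧ G.Adj v (b v))
    (hd : ∀ v ∈ T, d v ≠ a v ∧ d v ≠ b v ∧ G.Adj v (d v)) :
    2 * I.card + T.card + 4 ≤ 2 * Fintype.card V := by
  classical
  have hF : Fintype G.edgeSet := Fintype.ofFinite _
  have hle := edges_le G hML htf hn
  set A : Finset (Sym2 V) := I.image (fun v => s(v, a v)) with hA
  set B : Finset (Sym2 V) := I.image (fun v => s(v, b v)) with hB
  set D : Finset (Sym2 V) := T.image (fun v => s(v, d v)) with hD
  have hinj : ∀ u ∈ I, ∀ v ∈ I, ∀ x y, G.Adj u x → G.Adj v y → s(u, x) = s(v, y) →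
      u = v ∧ x = y := by
    intro u hu v hv x y hx hy h
    rcases Sym2.eq_iff.1 h with h1 | ⟨h1, h2⟩
    · exact h1
    · exfalso
      subst h1
      exact hI v hv u hu hy
  have cA : A.card = I.card := by
    rw [hA]
    refine Finset.card_image_of_injOn ?_
    intro u hu v hv h
    exact (hinj u hu v hv _ _ (hab u hu).2.1 (hab v hv).2.1 h).1
  have cB : B.card = I.card := by
    rw [hB]
    refine Finset.card_image_of_injOn ?_
    intro u hu v hv h
    exact (hinj u hu v hv _ _ (hab u hu).2.2 (hab v hv).2.2 h).1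
  have cD : D.card = T.card := by
    rw [hD]
    refine Finset.card_image_of_injOn ?_
    intro u hu v hv h
    exact (hinj u (hT hu) v (hT hv) _ _ (hd u hu).2.2 (hd v hv).2.2 h).1
  have dAB : Disjoint A B := by
    rw [Finset.disjoint_left]
    intro e he he'
    obtain ⟨u, hu, rfl⟩ := Finset.mem_image.1 he
    obtain ⟨v, hv, h⟩ := Finset.mem_image.1 he'
    obtain ⟨h1, h2⟩ := hinj v hv u hu _ _ (hab v hv).2.2 (hab u hu).2.1 h
    subst h1
    exact (hab v hv).1 h2.symm
  have dABD : Disjoint (A ∪ B) D := by
    rw [Finset.disjoint_left]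
    intro e he he'
    obtain ⟨v, hv, rfl⟩ := Finset.mem_image.1 he'
    rcases Finset.mem_union.1 he with h | h
    · obtain ⟨u, hu, h⟩ := Finset.mem_image.1 h
      obtain ⟨h1, h2⟩ := hinj u hu v (hT hv) _ _ (hab u hu).2.1 (hd v hv).2.2 h
      subst h1
      exact (hd u hv).1 h2.symm
    · obtain ⟨u, hu, h⟩ := Finset.mem_image.1 h
      obtain ⟨h1, h2⟩ := hinj u hu v (hT hv) _ _ (hab u hu).2.2 (hd v hv).2.2 h
      subst h1
      exact (hd u hv).2.1 h2.symm
  have hsub : (A ∪ B) ∪ D ⊆ G.edgeSet.toFinset := by
    intro e he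
    rw [Set.mem_toFinset]
    rcases Finset.mem_union.1 he with h | h
    · rcases Finset.mem_union.1 h with h | h
      · obtain ⟨u, hu, rfl⟩ := Finset.mem_image.1 h
        exact (hab u hu).2.1
      · obtain ⟨u, hu, rfl⟩ := Finset.mem_image.1 h
        exact (hab u hu).2.2
    · obtain ⟨u, hu, rfl⟩ := Finset.mem_image.1 h
      exact (hd u hu).2.2
  have hc := Finset.card_le_card hsub
  rw [Finset.card_union_of_disjoint dABD, Finset.card_union_of_disjoint dAB, cA, cB, cD,
    Set.toFinset_card] at hc
  omega

theorem leaf_count {V : Type} [Fintype V] (G : SimpleGraph V) (hG : IsPlanar G)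
    (h3 : G.CliqueFree 3) (hn : 3 ≤ Fintype.card V) (l : ℕ)
    (hl : ∀ a b, a ≠ b → Nat.card {v // ∀ w, G.Adj v w ↔ (w = a ∨ w = b)} ≤ l) :
    ∃ c : G.Coloring (Fin 3), ∀ i, 2 * Nat.card {v // c v = i} ≤ Fintype.card V ∨
      Nat.card {v // c v = i} + 4 + 3 * l + (2 + l) * Nat.card {v // c v = i} ≤
        (2 + l) * Fintype.card V := by
  classical
  have htf : TF G := by
    intro a b c hab hbc hac
    exact h3 {a, b, c} (SimpleGraph.is3Clique_triple_iff.2 ⟨hab, hac, hbc⟩)
  have hML : ML G := by
    have : Fintype G.edgeSet := Fintype.ofFinite _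
    exact (ml_iff G).2 (planar_cut G hG)
  obtain ⟨c, hc, hcard⟩ := gen G hG htf (by omega) (Pool.Agent.H32.BD.groetzsch G hG h3)
    (fun k => 2 * k ≤ Fintype.card V ∨ k + 4 + 3 * l + (2 + l) * k ≤ (2 + l) * Fintype.card V)
    (fun k hk => Or.inl hk) (by
      intro I a b hI hab hgood
      by_contra hcon
      push Not at hcon
      refine hgood (Or.inr ?_)
      set T := I.filter (fun v => ∃ w, G.Adj v w ∧ w ≠ a v ∧ w ≠ b v) with hT
      have hd : ∀ v, ∃ d, v ∈ T → (d ≠ a v ∧ d ≠ b v ∧ G.Adj v d) := by
        intro v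
        by_cases hv : v ∈ T
        · obtain ⟨w, h1, h2, h3⟩ := (Finset.mem_filter.1 hv).2
          exact ⟨w, fun _ => ⟨h2, h3, h1⟩⟩
        · exact ⟨v, fun h => (hv h).elim⟩
      choose d hd using hd
      have h1 := third_le G hML htf hn I T (Finset.filter_subset _ _) hI a b d hab hd
      have h2 : (I \ T).card ≤ l * (I.image (fun v => s(a v, b v))).card := by
        refine le_trans (Finset.card_le_mul_card_image (f := fun v => s(a v, b v)) (I \ T) l ?_)
          (Nat.mul_le_mul_left l (Finset.card_le_card
            (Finset.image_subset_image Finset.sdiff_subset)))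
        intro p hp
        rw [Finset.mem_image] at hp
        obtain ⟨w, hw, rfl⟩ := hp
        have hwI := (Finset.mem_sdiff.1 hw).1
        refine le_trans ?_ (hl (a w) (b w) (hab w hwI).1)
        rw [Nat.card_eq_fintype_card, Fintype.card_subtype]
        refine Finset.card_le_card ?_
        intro x hx
        rw [Finset.mem_filter] at hx
        obtain ⟨hx1, hx2⟩ := hx
        obtain ⟨hxI, hxT⟩ := Finset.mem_sdiff.1 hx1
        obtain ⟨_, x2, x3⟩ := hab x hxI
        have hxn : ∀ y, G.Adj x y → y = a x ∨ y = b x := by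
          intro y hy
          by_contra hne
          push Not at hne
          exact hxT (Finset.mem_filter.2 ⟨hxI, y, hy, hne.1, hne.2⟩)
        rw [Finset.mem_filter]
        refine ⟨Finset.mem_univ x, ?_⟩
        intro y
        rcases Sym2.eq_iff.1 hx2 with ⟨e1, e2⟩ | ⟨e1, e2⟩
        · rw [← e1, ← e2]
          constructor
          · exact hxn y
          · rintro (rfl | rfl)
            · exact x2
            · exact x3
        · rw [← e1, ← e2]
          constructor
          · intro hy
            exact (hxn y hy).symm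
          · rintro (rfl | rfl)
            · exact x3
            · exact x2
      have h4 : (I \ T).card + T.card = I.card :=
        Finset.card_sdiff_add_card_eq_card (Finset.filter_subset _ _)
      have h5 : l * ((I.image (fun v => s(a v, b v))).card + 3 + I.card) ≤
          l * Fintype.card V := Nat.mul_le_mul_left l (by omega)
      nlinarith)
  refine ⟨SimpleGraph.Coloring.mk c (fun {u v} h => hc u v h), fun i => ?_⟩
  have e : Nat.card {v // c v = i} = (univ.filter (fun v => c v = i)).card := by
    rw [Nat.card_eq_fintype_card, Fintype.card_subtype]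
  have h := hcard i
  rw [← e] at h
  exact h

end Pool.Agent.H61.TF
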