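import Pool.Agent.H61.TF.Lf
import Pool.Agent.H61.TF.Ct
import Pool.Agent.H32.BC.Ext2

set_option autoImplicit false

/-!
The bound for the colour classes of triangle-free planar graphs.

Proof. Let `l` be the largest number of vertices with the same two neighbours `a, b` and no others. If
`n + 4 ≤ l ^ 2` take the colouring of `leaf_pair` for `a, b`, otherwise the colouring of `leaf_count`.
-/

namespace Pool.Agent.H61.TF

open Finset Pool.Agent.H32.BC Pool.Agent.H32.BD Pool.Agent.H29.Tor

/-- the number of the vertices of the graph whose neighbours are exactly `a` and `b` -/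
noncomputable def twins {V : Type} (G : SimpleGraph V) (a b : V) : ℕ :=
  Nat.card {v // ∀ w, G.Adj v w ↔ (w = a ∨ w = b)}

/-- the largest number of vertices of degree 2 with the same neighbours -/
noncomputable def maxTwins {V : Type} (G : SimpleGraph V) : ℕ :=
  sSup {t | ∃ a b, a ≠ b ∧ t = twins G a b}

private theorem arith (n N l : ℕ) (hN : N ≤ n) (h1 : ¬ 2 * N ≤ n) (h2 : ¬ n + 4 ≤ (n - N) ^ 2)
    (h3 : N + 4 + 3 * l + (2 + l) * N ≤ (2 + l) * n) : 2 ≤ l ∧ n + 4 ≤ l ^ 2 := by
  obtain ⟨s, rfl⟩ := Nat.exists_eq_add_of_le hN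
  rw [Nat.add_sub_cancel_left] at h2
  push Not at h1 h2
  have h3' : N + 4 + 3 * l ≤ (2 + l) * s := by nlinarith
  have hs : 4 ≤ s := by
    by_contra hcon
    have : s = 0 ∨ s = 1 ∨ s = 2 ∨ s = 3 := by omega
    rcases this with rfl | rfl | rfl | rfl <;> omega
  have hls : s + 1 ≤ l := by
    by_contra hcon
    push Not at hcon
    obtain ⟨t, rfl⟩ := Nat.exists_eq_add_of_le hs
    nlinarith
  obtain ⟨t, rfl⟩ := Nat.exists_eq_add_of_le hls
  refine ⟨by omega, ?_⟩
  nlinarith

/-- the case of two vertices -/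
private theorem small (V : Type) [Fintype V] (G : SimpleGraph V) (hG : IsPlanar G)
    (h3 : G.CliqueFree 3) (hn : 2 ≤ Fintype.card V) (hlt : Fintype.card V < 3) :
    ∃ c : G.Coloring (Fin 3), ∀ i, 2 * Nat.card {v // c v = i} ≤ Fintype.card V := by
  obtain ⟨c, hc⟩ := main4 V G hG h3 hn
  refine ⟨c, fun i => ?_⟩
  rcases hc i with h | ⟨_, h2⟩
  · exact h
  · exfalso
    have h := h2 2 (fun x y _ => by
      classical
      rw [Nat.card_eq_fintype_card]
      exact le_trans (Fintype.card_subtype_le _) (by omega))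
    omega

theorem gap (V : Type) [Fintype V] (G : SimpleGraph V) (hG : IsPlanar G) (h3 : G.CliqueFree 3)
    (hn : 2 ≤ Fintype.card V) :
    ∃ c : G.Coloring (Fin 3), ∀ i, 2 * Nat.card {v // c v = i} ≤ Fintype.card V ∨
      Fintype.card V + 4 ≤ (Fintype.card V - Nat.card {v // c v = i}) ^ 2 := by
  classical
  rcases Nat.lt_or_ge (Fintype.card V) 3 with hlt | hge
  · obtain ⟨c, hc⟩ := small V G hG h3 hn hlt
    exact ⟨c, fun i => Or.inl (hc i)⟩
  have hne : ((univ : Finset (V × V)).filter (fun p => p.1 ≠ p.2)).Nonempty := by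
    obtain ⟨x, y, hxy⟩ := Fintype.exists_pair_of_one_lt_card (α := V) (by omega)
    exact ⟨(x, y), Finset.mem_filter.2 ⟨Finset.mem_univ _, hxy⟩⟩
  obtain ⟨p, hp, hmax⟩ := Finset.exists_max_image _
    (fun p : V × V => Nat.card {v // ∀ w, G.Adj v w ↔ (w = p.1 ∨ w = p.2)}) hne
  set l := Nat.card {v // ∀ w, G.Adj v w ↔ (w = p.1 ∨ w = p.2)} with hl
  obtain ⟨c, hc⟩ := leaf_count G hG h3 hge l (fun a b hab =>
    hmax (a, b) (Finset.mem_filter.2 ⟨Finset.mem_univ _, hab⟩))
  by_cases hgood : ∀ i, 2 * Nat.card {v // c v = i} ≤ Fintype.card V ∨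
      Fintype.card V + 4 ≤ (Fintype.card V - Nat.card {v // c v = i}) ^ 2
  · exact ⟨c, hgood⟩
  · push Not at hgood
    obtain ⟨i, h1, h2⟩ := hgood
    have hle : Nat.card {v // c v = i} ≤ Fintype.card V := by
      rw [Nat.card_eq_fintype_card]
      exact Fintype.card_subtype_le _
    have h3' := (hc i).resolve_left (by omega)
    obtain ⟨hl2, hl3⟩ := arith _ _ l hle (by omega) (by omega) h3'
    obtain ⟨c', hc'⟩ := leaf_pair G hG h3 p.1 p.2 (Finset.mem_filter.1 hp).2 hl2
    refine ⟨c', fun j => ?_⟩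
    rcases hc' j with h | h
    · exact Or.inl h
    · refine Or.inr (le_trans hl3 (Nat.pow_le_pow_left ?_ 2))
      omega

private theorem maxTwins_spec {V : Type} [Fintype V] (G : SimpleGraph V)
    (hn : 2 ≤ Fintype.card V) : (∃ a b, a ≠ b ∧ maxTwins G = twins G a b) ∧
      ∀ a b, a ≠ b → twins G a b ≤ maxTwins G := by
  classical
  have hb : BddAbove {t | ∃ a b : V, a ≠ b ∧ t = twins G a b} := by
    refine ⟨Fintype.card V, ?_⟩
    rintro t ⟨a, b, _, rfl⟩
    rw [twins, Nat.card_eq_fintype_card]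
    exact Fintype.card_subtype_le _
  have hne : {t | ∃ a b : V, a ≠ b ∧ t = twins G a b}.Nonempty := by
    obtain ⟨x, y, hxy⟩ := Fintype.exists_pair_of_one_lt_card (α := V) (by omega)
    exact ⟨_, x, y, hxy, rfl⟩
  exact ⟨Nat.sSup_mem hne hb, fun a b hab => le_csSup hb ⟨a, b, hab, rfl⟩⟩

/-- the bound -/
theorem twin_gap (V : Type) [Fintype V] (G : SimpleGraph V) (hG : IsPlanar G)
    (h3 : G.CliqueFree 3) (hn : 2 ≤ Fintype.card V) :
    ∃ c : G.Coloring (Fin 3), ∀ i, (Nat.card {v // c v = i} : ℝ) ≤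
      max ((Fintype.card V : ℝ) / 2) ((Fintype.card V : ℝ) -
        max (Real.sqrt (Fintype.card V + 4))
          (max (maxTwins G) (3 + ((Fintype.card V : ℝ) - 5) / (maxTwins G + 3)))) := by
  obtain ⟨⟨a, b, hab, hl⟩, hmax⟩ := maxTwins_spec G hn
  set l := maxTwins G with hldef
  have half : ∀ k : ℕ, 2 * k ≤ Fintype.card V → (k : ℝ) ≤ (Fintype.card V : ℝ) / 2 := by
    intro k hk
    have : (2 : ℝ) * (k : ℝ) ≤ (Fintype.card V : ℝ) := by exact_mod_cast hk
    linarith
  rcases Nat.lt_or_ge (Fintype.card V) 5 with hlt | hge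
  · obtain ⟨c, hc⟩ := gap V G hG h3 hn
    refine ⟨c, fun i => le_max_of_le_left (half _ ?_)⟩
    rcases hc i with h | h
    · exact h
    · by_contra hcon
      have h5 : Fintype.card V - Nat.card {v // c v = i} ≤ 1 := by omega
      have h6 := Nat.pow_le_pow_left h5 2
      omega
  have hn5 : (5 : ℝ) ≤ (Fintype.card V : ℝ) := by exact_mod_cast hge
  have hl0 : (0 : ℝ) ≤ (l : ℝ) := Nat.cast_nonneg l
  have hpos : (0 : ℝ) < (l : ℝ) + 3 := by linarith
  by_cases hcase : Fintype.card V + 4 ≤ l ^ 2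
  · have hcase' : (Fintype.card V : ℝ) + 4 ≤ (l : ℝ) ^ 2 := by exact_mod_cast hcase
    have hl2 : 2 ≤ l := by
      by_contra hcon
      have h5 : l ≤ 1 := by omega
      have h6 := Nat.pow_le_pow_left h5 2
      omega
    rw [hl] at hl2
    obtain ⟨c, hc⟩ := leaf_pair G hG h3 a b hab hl2
    refine ⟨c, fun i => ?_⟩
    rcases hc i with h | h
    · exact le_max_of_le_left (half _ h)
    · refine le_max_of_le_right ?_
      have h1 : (l : ℝ) + (Nat.card {v // c v = i} : ℝ) ≤ (Fintype.card V : ℝ) := by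
        rw [hl]
        exact_mod_cast h
      have h2 : max (Real.sqrt (Fintype.card V + 4))
          (max (l : ℝ) (3 + ((Fintype.card V : ℝ) - 5) / (l + 3))) ≤ (l : ℝ) := by
        refine max_le (Real.sqrt_le_iff.2 ⟨hl0, hcase'⟩) (max_le le_rfl ?_)
        have : ((Fintype.card V : ℝ) - 5) / (l + 3) ≤ (l : ℝ) - 3 := by
          rw [div_le_iff₀ hpos]
          nlinarith
        linarith
      linarith
  · push Not at hcase
    have hcase' : (l : ℝ) ^ 2 < (Fintype.card V : ℝ) + 4 := by exact_mod_cast hcase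
    obtain ⟨c, hc⟩ := leaf_count G hG h3 (by omega) l hmax
    refine ⟨c, fun i => ?_⟩
    rcases hc i with h | h
    · exact le_max_of_le_left (half _ h)
    · refine le_max_of_le_right ?_
      have h1 : (Nat.card {v // c v = i} : ℝ) + 4 + 3 * l +
          (2 + l) * (Nat.card {v // c v = i} : ℝ) ≤ (2 + l) * (Fintype.card V : ℝ) := by
        exact_mod_cast h
      have h3' : max (Real.sqrt (Fintype.card V + 4))
          (max (l : ℝ) (3 + ((Fintype.card V : ℝ) - 5) / (l + 3))) ≤
          3 + ((Fintype.card V : ℝ) - 5) / (l + 3) := by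
        set r := Real.sqrt (Fintype.card V + 4) with hr
        have hr0 : 0 ≤ r := Real.sqrt_nonneg _
        have hr2 : r ^ 2 = (Fintype.card V : ℝ) + 4 := Real.sq_sqrt (by linarith)
        have hr3 : 3 ≤ r := Real.le_sqrt_of_sq_le (by linarith)
        have hlr : (l : ℝ) ≤ r := by
          by_contra hcon
          push Not at hcon
          nlinarith
        have h7 : r - 3 ≤ ((Fintype.card V : ℝ) - 5) / (l + 3) := by
          rw [le_div_iff₀ hpos]
          nlinarith
        refine max_le (by linarith) (max_le (by linarith) le_rfl)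
      have h4 : (Nat.card {v // c v = i} : ℝ) ≤
          (Fintype.card V : ℝ) - (3 + ((Fintype.card V : ℝ) - 5) / (l + 3)) := by
        have h5 : 3 + ((Fintype.card V : ℝ) - 5) / (l + 3) =
            ((Fintype.card V : ℝ) + 3 * l + 4) / (l + 3) := by
          field_simp
          ring
        rw [h5, le_sub_iff_add_le, ← le_sub_iff_add_le', div_le_iff₀ hpos]
        nlinarith
      linarith

end Pool.Agent.H61.TF
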