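import Pool.Agent.H61.TF.Fc
import Pool.Agent.H32.BC.CutPlanar
import Mathlib.Combinatorics.SimpleGraph.Bipartite

set_option autoImplicit false

/-!
A triangle-free planar graph with `n ≥ 3` vertices has at most `2 n - 4` edges; so a triangle-free
planar graph does not contain `K_{3,3}`.
-/

namespace Pool.Agent.H61.TF

open Finset Pool.Agent.H32.BC Pool.Agent.H32.BD Pool.Agent.H29.Tor

theorem edges_le {V : Type} [Fintype V] (G : SimpleGraph V) [Fintype G.edgeSet]
    (hG : ML G) (htf : TF G) (hn : 3 ≤ Fintype.card V) :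
    Fintype.card G.edgeSet + 4 ≤ 2 * Fintype.card V := by
  classical
  have hne : Nonempty V := Fintype.card_pos_iff.1 (by omega)
  have her := edge_rank G
  have hZ := (ml_iff G).1 hG
  by_cases hbot : cyc (V := V) (Subtype.val : G.edgeSet → Sym2 V) = ⊥
  · rw [hbot, finrank_bot] at her
    omega
  obtain ⟨m, a, b, hrep, hsne, hm, hsum⟩ :=
    star_rep (cyc (V := V) (Subtype.val : G.edgeSet → Sym2 V)) hZ hbot
  have hE : Fintype.card {x // x ∈ G.edgeSet} = Fintype.card G.edgeSet := rfl
  rw [hE] at hsum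
  have h4 : ∀ j : Fin m, 4 ≤ (star a b j).card := by
    intro j
    by_contra hlt
    push Not at hlt
    obtain ⟨x, y, z, u, e₁, e₂, e₃, e₄, h₁, h₂, h₃, h₄, hxz, hyu, hS⟩ :=
      star_four G htf a b j hrep (hsne j) (by omega)
    have := four_le G _ x y z u e₁ e₂ e₃ e₄ h₁ h₂ h₃ h₄ hxz hyu hS
    omega
  have hlow : ∑ _j : Fin m, 4 ≤ ∑ j : Fin m, (star a b j).card :=
    Finset.sum_le_sum fun j _ => h4 j
  rw [Finset.sum_const, smul_eq_mul, Finset.card_univ, Fintype.card_fin] at hlow
  omega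

private def kf {V : Type} (a b y v₁ v₂ v₃ : V) : Fin 3 ⊕ Fin 3 → V
  | Sum.inl 0 => a
  | Sum.inl 1 => b
  | Sum.inl 2 => y
  | Sum.inr 0 => v₁
  | Sum.inr 1 => v₂
  | Sum.inr 2 => v₃

/-- three different vertices have at most two common neighbours -/
theorem no_k33 {V : Type} [Fintype V] (G : SimpleGraph V) (hG : ML G)
    (a b y v₁ v₂ v₃ : V) (hab : a ≠ b) (hay : a ≠ y) (hby : b ≠ y) (h12 : v₁ ≠ v₂)
    (h13 : v₁ ≠ v₃) (h23 : v₂ ≠ v₃) (a1 : G.Adj a v₁) (a2 : G.Adj a v₂) (a3 : G.Adj a v₃)
    (b1 : G.Adj b v₁) (b2 : G.Adj b v₂) (b3 : G.Adj b v₃) (y1 : G.Adj y v₁)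
    (y2 : G.Adj y v₂) (y3 : G.Adj y v₃) : False := by
  classical
  have hinj : Function.Injective (kf a b y v₁ v₂ v₃) := by
    have k1 := a1.ne
    have k2 := a2.ne
    have k3 := a3.ne
    have k4 := b1.ne
    have k5 := b2.ne
    have k6 := b3.ne
    have k7 := y1.ne
    have k8 := y2.ne
    have k9 := y3.ne
    rintro (i | i) (j | j) h <;> fin_cases i <;> fin_cases j <;>
      first
      | rfl
      | (exfalso; exact hab h)
      | (exfalso; exact hab h.symm)
      | (exfalso; exact hay h)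
      | (exfalso; exact hay h.symm)
      | (exfalso; exact hby h)
      | (exfalso; exact hby h.symm)
      | (exfalso; exact h12 h)
      | (exfalso; exact h12 h.symm)
      | (exfalso; exact h13 h)
      | (exfalso; exact h13 h.symm)
      | (exfalso; exact h23 h)
      | (exfalso; exact h23 h.symm)
      | (exfalso; exact k1 h)
      | (exfalso; exact k1 h.symm)
      | (exfalso; exact k2 h)
      | (exfalso; exact k2 h.symm)
      | (exfalso; exact k3 h)
      | (exfalso; exact k3 h.symm)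
      | (exfalso; exact k4 h)
      | (exfalso; exact k4 h.symm)
      | (exfalso; exact k5 h)
      | (exfalso; exact k5 h.symm)
      | (exfalso; exact k6 h)
      | (exfalso; exact k6 h.symm)
      | (exfalso; exact k7 h)
      | (exfalso; exact k7 h.symm)
      | (exfalso; exact k8 h)
      | (exfalso; exact k8 h.symm)
      | (exfalso; exact k9 h)
      | (exfalso; exact k9 h.symm)
  have hadj : ∀ i j : Fin 3, G.Adj (kf a b y v₁ v₂ v₃ (Sum.inl i)) (kf a b y v₁ v₂ v₃ (Sum.inr j)) := by
    intro i j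
    fin_cases i <;> fin_cases j
    · exact a1
    · exact a2
    · exact a3
    · exact b1
    · exact b2
    · exact b3
    · exact y1
    · exact y2
    · exact y3
  obtain ⟨inst, hG⟩ := hG
  set K := completeBipartiteGraph (Fin 3) (Fin 3) with hK
  have hKadj : ∀ s t, K.Adj s t → ∃ e : G.edgeSet, (e : Sym2 V) =
      s(kf a b y v₁ v₂ v₃ s, kf a b y v₁ v₂ v₃ t) := by
    rintro (i | i) (j | j) h
    · simp [hK] at h
    · exact ⟨⟨_, hadj i j⟩, rfl⟩
    · exact ⟨⟨_, (hadj j i).symm⟩, rfl⟩
    · simp [hK] at h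
  have hML : ML K := ml_of (Subtype.val : G.edgeSet → Sym2 V) hG K _ hinj hKadj
  have hTF : TF K := by
    rintro (i | i) (j | j) (k | k) h1 h2 h3 <;> simp [hK] at h1 h2 h3
  have hF : Fintype K.edgeSet := Fintype.ofFinite _
  have h6 : Fintype.card (Fin 3 ⊕ Fin 3) = 6 := rfl
  have hle := edges_le K hML hTF (by rw [h6]; norm_num)
  have h9 : K.edgeSet.encard = 9 := by
    rw [hK, SimpleGraph.encard_edgeSet_completeBipartiteGraph]
    simp
    norm_num
  rw [Set.encard_eq_coe_toFinset_card, Set.toFinset_card] at h9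
  have h9' : Fintype.card K.edgeSet = 9 := by exact_mod_cast h9
  rw [h9', h6] at hle
  omega

end Pool.Agent.H61.TF
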