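import Pool.Agent.H61.TF.Ak
import Pool.Agent.H61.TF.Kt

set_option autoImplicit false

/-!
`leaf_pair`: if `λ ≥ 2` vertices have exactly the neighbours `a, b` there is a 3-colouring all of whose
classes have at most `n / 2` or at most `n - λ` vertices.

Proof. `ak` for two of these vertices gives a colouring with `c a = c b`. Among these take one for which
the sum of the squares of the class sizes is minimal. The class of `a` contains none of the `λ`
vertices, another class with more than `n / 2` vertices neither, since they could be moved.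
-/

namespace Pool.Agent.H61.TF

open Finset Pool.Agent.H32.BC Pool.Agent.H32.BD Pool.Agent.H29.Tor

private theorem sum3 (f : Fin 3 → ℕ) (i j k : Fin 3) (hij : i ≠ j) (hik : i ≠ k) (hjk : j ≠ k) :
    ∑ x, f x = f i + f j + f k := by
  rw [Fin.sum_univ_three]
  fin_cases i <;> fin_cases j <;> fin_cases k <;> simp at hij hik hjk ⊢ <;> omega

private theorem third (p q : Fin 3) (h : p ≠ q) : ∃ r : Fin 3, r ≠ p ∧ r ≠ q ∧
    ∀ s, s = p ∨ s = q ∨ s = r := by
  revert p q
  decide

theorem leaf_pair {V : Type} [Fintype V] (G : SimpleGraph V) (hG : IsPlanar G)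
    (h3 : G.CliqueFree 3) (a b : V) (hab : a ≠ b)
    (hμ : 2 ≤ Nat.card {v // ∀ w, G.Adj v w ↔ (w = a ∨ w = b)}) :
    ∃ c : G.Coloring (Fin 3), ∀ i, 2 * Nat.card {v // c v = i} ≤ Fintype.card V ∨
      Nat.card {v // ∀ w, G.Adj v w ↔ (w = a ∨ w = b)} + Nat.card {v // c v = i} ≤
        Fintype.card V := by
  classical
  set C : Finset V := univ.filter (fun v => ∀ w, G.Adj v w ↔ (w = a ∨ w = b)) with hC
  have hCcard : Nat.card {v // ∀ w, G.Adj v w ↔ (w = a ∨ w = b)} = C.card := by
    rw [Nat.card_eq_fintype_card, Fintype.card_subtype]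
  rw [hCcard] at hμ ⊢
  have hCm : ∀ v, v ∈ C ↔ ∀ w, G.Adj v w ↔ (w = a ∨ w = b) := by
    intro v
    rw [hC, Finset.mem_filter]
    simp
  have hCa : ∀ v, v ∈ C → G.Adj v a := fun v hv => ((hCm v).1 hv a).2 (Or.inl rfl)
  have hCb : ∀ v, v ∈ C → G.Adj v b := fun v hv => ((hCm v).1 hv b).2 (Or.inr rfl)
  obtain ⟨v₁, hv₁, v₂, hv₂, hv⟩ := Finset.one_lt_card.1 (show 1 < C.card by omega)
  obtain ⟨c₀, hc₀⟩ := ak G hG h3 v₁ v₂ hv
  have hc₀ab : c₀ a = c₀ b := by
    have key : ∀ p q r s : Fin 3, r ≠ s → r ≠ p → s ≠ p → r ≠ q → s ≠ q → p = q := by decide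
    exact key _ _ _ _ hc₀ (c₀.valid (hCa v₁ hv₁)) (c₀.valid (hCa v₂ hv₂))
      (c₀.valid (hCb v₁ hv₁)) (c₀.valid (hCb v₂ hv₂))
  set S : Finset (V → Fin 3) := univ.filter (fun c => (∀ u v, G.Adj u v → c u ≠ c v) ∧ c a = c b)
    with hS
  have hSne : S.Nonempty := ⟨fun v => c₀ v, by
    rw [hS, Finset.mem_filter]
    exact ⟨Finset.mem_univ _, fun u v h => c₀.valid h, hc₀ab⟩⟩
  obtain ⟨c, hcS, hcmin⟩ := Finset.exists_min_image S
    (fun c => ∑ i : Fin 3, (univ.filter (fun v => c v = i)).card ^ 2) hSne
  obtain ⟨-, hcp, hcab⟩ := Finset.mem_filter.1 hcS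
  refine ⟨SimpleGraph.Coloring.mk c (fun {u v} h => hcp u v h), ?_⟩
  intro i
  have hNc : Nat.card {v // c v = i} = (univ.filter (fun v => c v = i)).card := by
    rw [Nat.card_eq_fintype_card, Fintype.card_subtype]
  show 2 * Nat.card {v // c v = i} ≤ Fintype.card V ∨
    C.card + Nat.card {v // c v = i} ≤ Fintype.card V
  rw [hNc]
  by_contra hcon
  push Not at hcon
  obtain ⟨hbig, hbad⟩ := hcon
  by_cases hia : i = c a
  · have hdis : Disjoint C (univ.filter (fun v => c v = i)) := by
      rw [Finset.disjoint_left]
      intro v hvC hvi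
      rw [Finset.mem_filter] at hvi
      exact hcp v a (hCa v hvC) (by rw [hvi.2, hia])
    have h1 := Finset.card_union_of_disjoint hdis
    have h2 := Finset.card_le_univ (C ∪ univ.filter (fun v => c v = i))
    omega
  obtain ⟨j, hji, hja, hall⟩ := third i (c a) hia
  set Ni := univ.filter (fun v => c v = i) with hNi
  set Nj := univ.filter (fun v => c v = j) with hNj
  set Nk := univ.filter (fun v => c v = c a) with hNk
  have hsum : ∑ x : Fin 3, (univ.filter (fun v => c v = x)).card = Fintype.card V := by
    rw [← Finset.card_univ (α := V)]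
    exact (Finset.card_eq_sum_card_fiberwise (f := c) (s := univ) (t := univ)
      (fun x _ => Finset.mem_coe.2 (Finset.mem_univ _))).symm
  rw [sum3 _ i j (c a) hji.symm hia hja] at hsum
  change Ni.card + Nj.card + Nk.card = Fintype.card V at hsum
  have hk2 : 2 ≤ Nk.card := by
    have h1 : ({a, b} : Finset V) ⊆ Nk := by
      intro v hv
      rw [Finset.mem_insert, Finset.mem_singleton] at hv
      rw [hNk, Finset.mem_filter]
      rcases hv with rfl | rfl
      · exact ⟨Finset.mem_univ _, rfl⟩
      · exact ⟨Finset.mem_univ _, hcab.symm⟩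
    have h2 := Finset.card_le_card h1
    rwa [Finset.card_pair hab] at h2
  have hdis : Disjoint C Ni := by
    rw [Finset.disjoint_left]
    intro v hvC hvN
    have hvi : c v = i := (Finset.mem_filter.1 hvN).2
    have hva : v ≠ a := (hCa v hvC).ne
    have hvb : v ≠ b := (hCb v hvC).ne
    have hno : ∀ q, G.Adj v q → c q ≠ j := by
      intro q hq
      rcases ((hCm v).1 hvC q).1 hq with rfl | rfl
      · exact hja.symm
      · rw [← hcab]
        exact hja.symm
    have hc' : Function.update c v j ∈ S := by
      rw [hS, Finset.mem_filter]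
      refine ⟨Finset.mem_univ _, ?_, ?_⟩
      · intro p q hpq
        by_cases hp : p = v
        · subst hp
          rw [Function.update_self, Function.update_of_ne hpq.ne']
          exact (hno q hpq).symm
        · rw [Function.update_of_ne hp]
          by_cases hq : q = v
          · subst hq
            rw [Function.update_self]
            exact hno p hpq.symm
          · rw [Function.update_of_ne hq]
            exact hcp p q hpq
      · rw [Function.update_of_ne hva.symm, Function.update_of_ne hvb.symm]
        exact hcab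
    have hmin := hcmin _ hc'
    rw [sum3 _ i j (c a) hji.symm hia hja, sum3 _ i j (c a) hji.symm hia hja] at hmin
    have e1 : univ.filter (fun x => Function.update c v j x = i) = Ni.erase v := by
      ext x
      rw [Finset.mem_filter, Finset.mem_erase, hNi, Finset.mem_filter]
      by_cases hx : x = v
      · subst hx
        rw [Function.update_self]
        simp [hji]
      · rw [Function.update_of_ne hx]
        simp [hx]
    have e2 : univ.filter (fun x => Function.update c v j x = j) = insert v Nj := by
      ext x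
      rw [Finset.mem_filter, Finset.mem_insert, hNj, Finset.mem_filter]
      by_cases hx : x = v
      · subst hx
        rw [Function.update_self]
        simp
      · rw [Function.update_of_ne hx]
        simp [hx]
    have e3 : univ.filter (fun x => Function.update c v j x = c a) = Nk := by
      ext x
      rw [Finset.mem_filter, hNk, Finset.mem_filter]
      by_cases hx : x = v
      · subst hx
        rw [Function.update_self, hvi]
        simp [hja, hia]
      · rw [Function.update_of_ne hx]
    have hvNj : v ∉ Nj := by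
      rw [hNj, Finset.mem_filter]
      rintro ⟨_, h⟩
      exact hji (h.symm.trans hvi)
    rw [e1, e2, e3, Finset.card_erase_of_mem hvN, Finset.card_insert_of_notMem hvNj] at hmin
    have hpos : 1 ≤ Ni.card := Finset.card_pos.2 ⟨v, hvN⟩
    obtain ⟨t, ht⟩ : ∃ t, Ni.card = t + 1 := ⟨Ni.card - 1, by omega⟩
    rw [ht] at hmin hsum hbig
    have h4 : Nj.card + 1 ≤ t := by omega
    simp only [Nat.add_sub_cancel] at hmin
    nlinarith
  have h1 := Finset.card_union_of_disjoint hdis
  have h2 := Finset.card_le_univ (C ∪ Ni)
  omega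

end Pool.Agent.H61.TF
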