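import Pool.Agent.H32.BD.GB
import Pool.Agent.H32.BD.GE
import Pool.Agent.H32.BC.Rank

set_option autoImplicit false

/-!
Small faces: a representation of a cut space in which all stars are nonempty and which has at least
`finrank + 1` stars; a small star of a triangle-free graph is a 4-cycle; if `p, q` have at most two
common neighbours and `5 n ≤ 3 |E| + 5` there is a 4-cycle star whose diagonals are not `{p, q}`.
-/

namespace Pool.Agent.H61.TF

open Finset Pool.Agent.H32.BC Pool.Agent.H32.BD

private theorem rep_equiv {E J K : Type} (Z : Submodule (ZMod 2) (E → ZMod 2)) (a b : E → J)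
    (h : Rep Z a b) (f : J ≃ K) : Rep Z (f ∘ a) (f ∘ b) := by
  intro z
  rw [h z]
  constructor
  · rintro ⟨q, hq⟩
    exact ⟨q ∘ f.symm, fun e => by simp [hq e]⟩
  · rintro ⟨q, hq⟩
    exact ⟨q ∘ f, fun e => by simpa using hq e⟩

private theorem rep_ne {E J : Type} (Z : Submodule (ZMod 2) (E → ZMod 2)) (a b : E → J)
    (h : Rep Z a b) (hne : Z ≠ ⊥) (j : J) : ∃ j' : J, j' ≠ j := by
  by_contra hcon
  push Not at hcon
  apply hne
  rw [eq_bot_iff]
  intro z hz
  obtain ⟨q, hq⟩ := (h z).1 hz
  rw [Submodule.mem_bot]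
  funext e
  rw [hq e, hcon (a e), hcon (b e), CharTwo.add_self_eq_zero, Pi.zero_apply]

private theorem rep_drop {E J : Type} [Fintype E] (Z : Submodule (ZMod 2) (E → ZMod 2)) (a b : E → J)
    (h : Rep Z a b) (hne : Z ≠ ⊥) (j : J) (hs : star a b j = ∅) :
    ∃ a' b' : E → {i : J // i ≠ j}, Rep Z a' b' := by
  classical
  obtain ⟨j', hj'⟩ := rep_ne Z a b h hne j
  have hE : ∀ e, (a e = j ↔ b e = j) := by
    intro e
    have h1 : e ∉ star a b j := by rw [hs]; exact Finset.notMem_empty e
    unfold Pool.Agent.H32.BD.star at h1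
    rw [Finset.mem_filter] at h1
    simp only [Finset.mem_univ, true_and, not_or, not_and, not_not] at h1
    exact ⟨h1.1, fun h2 => by
      by_contra h3
      exact h1.2 h3 h2⟩
  let π : J → {i : J // i ≠ j} := fun i => if hi : i = j then ⟨j', hj'⟩ else ⟨i, hi⟩
  refine ⟨π ∘ a, π ∘ b, fun z => ?_⟩
  rw [h z]
  constructor
  · rintro ⟨q, hq⟩
    refine ⟨fun i => q i.1, fun e => ?_⟩
    rw [hq e]
    by_cases h1 : a e = j
    · have h2 : b e = j := (hE e).1 h1
      simp only [Function.comp, π, h1, h2, dif_pos, CharTwo.add_self_eq_zero]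
    · have h2 : b e ≠ j := fun h2 => h1 ((hE e).2 h2)
      simp only [Function.comp, π, h1, h2, dif_neg, not_false_eq_true]
  · rintro ⟨q, hq⟩
    exact ⟨fun i => q (π i), fun e => hq e⟩

private theorem rep_rank {E J : Type} [Fintype E] [Fintype J] [Nonempty J]
    (Z : Submodule (ZMod 2) (E → ZMod 2)) (a b : E → J) (h : Rep Z a b) :
    Module.finrank (ZMod 2) Z + 1 ≤ Fintype.card J := by
  classical
  let F : (J → ZMod 2) →ₗ[ZMod 2] (E → ZMod 2) :=
    { toFun := fun q e => q (a e) + q (b e)
      map_add' := fun q r => by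
        funext e
        simp only [Pi.add_apply]
        ring
      map_smul' := fun c q => by
        funext e
        simp only [Pi.smul_apply, smul_eq_mul, RingHom.id_apply]
        ring }
  have h1 : LinearMap.range F = Z := by
    ext z
    rw [LinearMap.mem_range, h z]
    constructor
    · rintro ⟨q, rfl⟩
      exact ⟨q, fun e => rfl⟩
    · rintro ⟨q, hq⟩
      exact ⟨q, (funext hq).symm⟩
  have h2 := LinearMap.finrank_range_add_finrank_ker F
  rw [h1, Module.finrank_fintype_fun_eq_card] at h2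
  have h3 : LinearMap.ker F ≠ ⊥ := by
    intro h4
    have h5 : (fun _ => 1 : J → ZMod 2) ∈ LinearMap.ker F := by
      rw [LinearMap.mem_ker]
      funext e
      exact CharTwo.add_self_eq_zero (1 : ZMod 2)
    rw [h4, Submodule.mem_bot] at h5
    exact one_ne_zero (congrFun h5 (Classical.arbitrary J))
  have h4 : 1 ≤ Module.finrank (ZMod 2) (LinearMap.ker F) :=
    Submodule.one_le_finrank_iff.2 h3
  omega

private theorem star_sum {E J : Type} [Fintype E] [Fintype J] (a b : E → J) :
    ∑ j : J, (star a b j).card ≤ 2 * Fintype.card E := by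
  classical
  have h1 : ∀ j, (star a b j).card = ∑ e : E, if e ∈ star a b j then 1 else 0 := by
    intro j
    rw [Finset.sum_ite_mem, Finset.univ_inter, Finset.sum_const, smul_eq_mul, mul_one]
  simp only [h1]
  rw [Finset.sum_comm]
  have h2 : ∀ e : E, ∑ j : J, (if e ∈ star a b j then 1 else 0) ≤ 2 := by
    intro e
    rw [← Finset.sum_filter, Finset.sum_const, smul_eq_mul, mul_one]
    refine (Finset.card_le_card (t := {a e, b e}) ?_).trans Finset.card_le_two
    intro j hj
    rw [Finset.mem_filter] at hj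
    have h3 := hj.2
    unfold Pool.Agent.H32.BD.star at h3
    rw [Finset.mem_filter] at h3
    rw [Finset.mem_insert, Finset.mem_singleton]
    rcases h3.2 with h4 | h4
    · exact Or.inl h4.1.symm
    · exact Or.inr h4.2.symm
  calc ∑ e : E, ∑ j : J, (if e ∈ star a b j then 1 else 0) ≤ ∑ e : E, 2 :=
        Finset.sum_le_sum fun e _ => h2 e
    _ = 2 * Fintype.card E := by
        rw [Finset.sum_const, smul_eq_mul, Finset.card_univ, mul_comm]

theorem star_rep {E : Type} [Fintype E] (Z : Submodule (ZMod 2) (E → ZMod 2))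
    (hZ : IsCutSpace Z) (hne : Z ≠ ⊥) :
    ∃ (m : ℕ) (a b : E → Fin m), Rep Z a b ∧ (∀ j, (star a b j).Nonempty) ∧
      Module.finrank (ZMod 2) Z + 1 ≤ m ∧
      ∑ j : Fin m, (star a b j).card ≤ 2 * Fintype.card E := by
  classical
  have hex : ∃ m : ℕ, ∃ a b : E → Fin m, Rep Z a b := by
    obtain ⟨J, hJ, a, b, hab⟩ := hZ
    have : Fintype J := Fintype.ofFinite J
    exact ⟨Fintype.card J, _, _, rep_equiv Z a b hab (Fintype.equivFin J)⟩
  obtain ⟨a, b, hab⟩ := Nat.find_spec hex
  have hmin := fun {n : ℕ} => Nat.find_min hex (m := n)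
  generalize Nat.find hex = m at a b hab hmin
  have hstar : ∀ j : Fin m, (star a b j).Nonempty := by
    intro j
    rw [Finset.nonempty_iff_ne_empty]
    intro h0
    obtain ⟨a', b', hab'⟩ := rep_drop Z a b hab hne j h0
    have hc : Fintype.card {i : Fin m // i ≠ j} = m - 1 := by
      rw [Fintype.card_subtype_compl, Fintype.card_fin, Fintype.card_subtype_eq]
    have hm : m - 1 < m := by
      have := j.pos
      omega
    apply hmin hm
    rw [← hc]
    exact ⟨_, _, rep_equiv Z a' b' hab' (Fintype.equivFin _)⟩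
  have hm0 : Nonempty (Fin m) := by
    by_contra hcon
    rw [not_nonempty_iff] at hcon
    apply hne
    rw [eq_bot_iff]
    intro z hz
    rw [Submodule.mem_bot]
    funext e
    exact isEmptyElim (a e)
  have hrank := rep_rank Z a b hab
  rw [Fintype.card_fin] at hrank
  exact ⟨m, a, b, hab, hstar, hrank, star_sum a b⟩

private theorem st_z {J : Type} [DecidableEq J] (u v f : J) :
    (Pi.single f (1 : ZMod 2) : J → ZMod 2) u + (Pi.single f (1 : ZMod 2) : J → ZMod 2) v ≠ 0 ↔
      ((u = f ∧ v ≠ f) ∨ (u ≠ f ∧ v = f)) := by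
  rw [Pi.single_apply, Pi.single_apply]
  by_cases hu : u = f <;> by_cases hv : v = f <;> simp [hu, hv]
  decide

/-- a small star of a triangle-free graph is a 4-cycle -/
theorem star_four {V J : Type} (G : SimpleGraph V) [Fintype G.edgeSet] (htf : TF G)
    (a b : G.edgeSet → J) (f : J)
    (hrep : Rep (cyc (V := V) (Subtype.val : G.edgeSet → Sym2 V)) a b)
    (hne : (star a b f).Nonempty) (hc : (star a b f).card < 5) :
    ∃ (x y z u : V) (e₁ e₂ e₃ e₄ : G.edgeSet),
      (e₁ : Sym2 V) = s(x, y) ∧ (e₂ : Sym2 V) = s(y, z) ∧ (e₃ : Sym2 V) = s(z, u) ∧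
      (e₄ : Sym2 V) = s(u, x) ∧ x ≠ z ∧ y ≠ u ∧
      ∀ e, e ∈ star a b f ↔ (e = e₁ ∨ e = e₂ ∨ e = e₃ ∨ e = e₄) := by
  classical
  set ζ : G.edgeSet → ZMod 2 := fun e =>
    (Pi.single f (1 : ZMod 2) : J → ZMod 2) (a e) + (Pi.single f (1 : ZMod 2) : J → ZMod 2) (b e)
    with hζ
  have hiff : ∀ e, ζ e ≠ 0 ↔ e ∈ star a b f := by
    intro e
    unfold Pool.Agent.H32.BD.star
    rw [mem_filter]
    simp only [mem_univ, true_and]
    exact st_z (a e) (b e) f
  have hmem : ζ ∈ cyc (V := V) (Subtype.val : G.edgeSet → Sym2 V) :=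
    (hrep ζ).2 ⟨Pi.single f 1, fun e => rfl⟩
  have hsupp : supp ζ = star a b f := by
    ext e
    unfold supp
    rw [mem_filter]
    simp only [mem_univ, true_and]
    exact hiff e
  obtain ⟨x, y, z, u, e₁, e₂, e₃, e₄, h1, h2, h3, h4, h5, h6, h7⟩ :=
    four_cycle (Subtype.val : G.edgeSet → Sym2 V) Subtype.val_injective
      (fun e => G.not_isDiag_of_mem_edgeSet e.2)
      (by
        intro e₁ e₂ e₃ x y w h1 h2 h3
        have k1 : G.Adj x y := by
          have := e₁.2
          rwa [h1, SimpleGraph.mem_edgeSet] at this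
        have k2 : G.Adj y w := by
          have := e₂.2
          rwa [h2, SimpleGraph.mem_edgeSet] at this
        have k3 : G.Adj w x := by
          have := e₃.2
          rwa [h3, SimpleGraph.mem_edgeSet] at this
        exact htf x y w k1 k2 k3.symm) ζ hmem (by rw [hsupp]; exact hne) (by rw [hsupp]; exact hc)
  exact ⟨x, y, z, u, e₁, e₂, e₃, e₄, h1, h2, h3, h4, h5, h6, fun e => (hiff e).symm.trans (h7 e)⟩

end Pool.Agent.H61.TF
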